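import Pool.Agent.H78.KST.JetA
import Pool.Agent.H99.KST.NRD

/-!
# Row NRM of K_STEP: the jet norm of a finite set of points

`jn D hs x` is the anisotropic jet size at the point `x` as a seminorm on the polynomials of degree
at most `D`, and `jE D hs E` is the supremum over a finite set of points.
-/

set_option autoImplicit false

namespace Pool.KST

open Finset MvPolynomial Pool.KAL Module

/-- Thickness `h` in the base directions, thickness `r` in the passive direction. -/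
def thk {n : ℕ} (h r : ℝ) : Option (Fin n) → ℝ := fun o => o.elim r (fun _ => h)

@[simp] lemma thk_none {n : ℕ} (h r : ℝ) : (thk h r : Option (Fin n) → ℝ) none = r := rfl

@[simp] lemma thk_some {n : ℕ} (h r : ℝ) (i : Fin n) :
    (thk h r : Option (Fin n) → ℝ) (some i) = h := rfl

lemma thk_pos {n : ℕ} {h r : ℝ} (hh : 0 < h) (hr : 0 < r) (o : Option (Fin n)) :
    0 < (thk h r : Option (Fin n) → ℝ) o := by
  cases o <;> simp [hh, hr]

lemma thk_le {n : ℕ} {h r h' r' : ℝ} (hh : h ≤ h') (hr : r ≤ r') (o : Option (Fin n)) :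
    (thk h r : Option (Fin n) → ℝ) o ≤ (thk h' r' : Option (Fin n) → ℝ) o := by
  cases o <;> simp [hh, hr]

/-- The thick norm is at most `(r' / r) ^ D` times the thin one. -/
lemma thk_ratio {n : ℕ} {h r r' : ℝ} (hh : 0 < h) (hr : 0 < r) (hrr : r ≤ r')
    (o : Option (Fin n)) :
    (thk h r' : Option (Fin n) → ℝ) o ≤ r' / r * (thk h r : Option (Fin n) → ℝ) o := by
  have h1 : 1 ≤ r' / r := by
    rw [le_div_iff₀ hr, one_mul]
    exact hrr
  cases o with
  | none =>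
    simp only [thk_none]
    rw [div_mul_cancel₀ _ hr.ne']
  | some i =>
    simp only [thk_some]
    have := mul_le_mul_of_nonneg_right h1 hh.le
    linarith

section point

variable {σ : Type}

/-- The jet size at a point, as a seminorm. -/
noncomputable def jn (D : ℕ) (hs x : σ → ℝ) : Seminorm ℝ (restrictTotalDegree σ ℝ D) :=
  Seminorm.of (fun P => PsiA (P : MvPolynomial σ ℝ) hs x)
    (fun P Q => by
      rw [Submodule.coe_add]
      exact PsiA_add_le _ _ _ _)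
    (fun a P => by
      rw [Submodule.coe_smul, PsiA_smul, Real.norm_eq_abs])

@[simp] lemma jn_apply (D : ℕ) (hs x : σ → ℝ) (P : restrictTotalDegree σ ℝ D) :
    jn D hs x P = PsiA (P : MvPolynomial σ ℝ) hs x := rfl

lemma deg_le {D : ℕ} (P : restrictTotalDegree σ ℝ D) :
    (P : MvPolynomial σ ℝ).totalDegree ≤ D := (mem_restrictTotalDegree _ _ _).mp P.2

/-- The jet norm of a finite set of points. -/
noncomputable def jE (D : ℕ) (hs : σ → ℝ) (E : Finset (σ → ℝ)) :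
    Seminorm ℝ (restrictTotalDegree σ ℝ D) := E.sup (jn D hs)

lemma le_jE {D : ℕ} {hs : σ → ℝ} {E : Finset (σ → ℝ)} {x : σ → ℝ} (hx : x ∈ E)
    (P : restrictTotalDegree σ ℝ D) : PsiA (P : MvPolynomial σ ℝ) hs x ≤ jE D hs E P := by
  have h1 : jn D hs x ≤ jE D hs E := Finset.le_sup hx
  exact h1 P

lemma jE_le {D : ℕ} {hs : σ → ℝ} {E : Finset (σ → ℝ)} {S : ℝ} (hS : 0 ≤ S)
    (P : restrictTotalDegree σ ℝ D) (h : ∀ x ∈ E, PsiA (P : MvPolynomial σ ℝ) hs x ≤ S) :
    jE D hs E P ≤ S := Seminorm.finset_sup_apply_le hS h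

lemma jE_attained {D : ℕ} {hs : σ → ℝ} {E : Finset (σ → ℝ)} (hE : E.Nonempty)
    (P : restrictTotalDegree σ ℝ D) :
    ∃ x ∈ E, jE D hs E P = PsiA (P : MvPolynomial σ ℝ) hs x := by
  obtain ⟨x, hx, h⟩ := Seminorm.exists_apply_eq_finset_sup (jn D hs) hE P
  exact ⟨x, hx, h⟩

lemma jE_isN {D : ℕ} {hs : σ → ℝ} {E : Finset (σ → ℝ)} (hE : E.Nonempty) (h0 : ∀ i, 0 < hs i) :
    IsN (jE D hs E) := by
  intro P hP
  obtain ⟨x, hx⟩ := hE
  have h1 : PsiA (P : MvPolynomial σ ℝ) hs x ≤ jE D hs E P := le_jE hx P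
  rw [hP] at h1
  have h2 := PsiA_eq_zero _ hs x h0 (le_antisymm h1 (PsiA_nonneg _ _ _))
  exact Subtype.ext h2

lemma jE_pos {D : ℕ} {hs : σ → ℝ} {E : Finset (σ → ℝ)} (hE : E.Nonempty) (h0 : ∀ i, 0 < hs i)
    {P : restrictTotalDegree σ ℝ D} (hP : P ≠ 0) : 0 < jE D hs E P :=
  lt_of_le_of_ne (apply_nonneg _ _) fun h => hP (jE_isN hE h0 P h.symm)

lemma jE_pos' {D : ℕ} {hs : σ → ℝ} {E : Finset (σ → ℝ)} (hE : E.Nonempty) (h0 : ∀ i, 0 < hs i)
    {P : restrictTotalDegree σ ℝ D} (hP : (P : MvPolynomial σ ℝ) ≠ 0) : 0 < jE D hs E P :=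
  jE_pos hE h0 fun h => hP (by rw [h]; rfl)

lemma jE_subset {D : ℕ} {hs : σ → ℝ} {E E' : Finset (σ → ℝ)} (h : E ⊆ E')
    (P : restrictTotalDegree σ ℝ D) : jE D hs E P ≤ jE D hs E' P :=
  jE_le (apply_nonneg _ _) P fun _ hx => le_jE (h hx) P

/-- The thin norm is at most the thick one. -/
lemma jE_mono {D : ℕ} {hs hs' : σ → ℝ} (E : Finset (σ → ℝ)) (h0 : ∀ i, 0 < hs i)
    (h : ∀ i, hs i ≤ hs' i) (P : restrictTotalDegree σ ℝ D) :
    jE D hs E P ≤ jE D hs' E P :=
  jE_le (apply_nonneg _ _) P fun x hx => (PsiA_mono _ hs hs' h0 h x).trans (le_jE hx P)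

/-- The thick norm is at most a power of the ratio times the thin one. -/
lemma jE_radius {D : ℕ} {hs hs' : σ → ℝ} (E : Finset (σ → ℝ)) {M : ℝ} (hM : 1 ≤ M)
    (h0 : ∀ i, 0 < hs i) (h0' : ∀ i, 0 ≤ hs' i) (h : ∀ i, hs' i ≤ M * hs i)
    (P : restrictTotalDegree σ ℝ D) : jE D hs' E P ≤ M ^ D * jE D hs E P := by
  refine jE_le (by have := apply_nonneg (jE D hs E) P; positivity) P fun x hx => ?_
  refine (PsiA_radius _ hs hs' M hM h0 h0' h x).trans ?_
  refine mul_le_mul (pow_le_pow_right₀ hM (deg_le P)) (le_jE hx P) (PsiA_nonneg _ _ _) ?_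
  positivity

/-- Two sets of points which are near each other. -/
lemma jE_near {D : ℕ} {hs : σ → ℝ} {E E' : Finset (σ → ℝ)} {M : ℝ} (hM : 0 ≤ M)
    (h0 : ∀ i, 0 < hs i) (h : ∀ x' ∈ E', ∃ x ∈ E, ∀ i, |x' i - x i| ≤ M * hs i)
    (P : restrictTotalDegree σ ℝ D) : jE D hs E' P ≤ (1 + M) ^ D * jE D hs E P := by
  refine jE_le (by have := apply_nonneg (jE D hs E) P; positivity) P fun x' hx' => ?_
  obtain ⟨x, hx, hxx⟩ := h x' hx'
  refine (PsiA_near _ hs M h0 hM x x' hxx).trans ?_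
  refine mul_le_mul (pow_le_pow_right₀ (by linarith) (deg_le P)) (le_jE hx P)
    (PsiA_nonneg _ _ _) ?_
  positivity

end point

/-- The space of polynomials of degree at most `D` is not zero. -/
lemma finrank_poly_pos (σ : Type) [Finite σ] (D : ℕ) :
    0 < finrank ℝ (restrictTotalDegree σ ℝ D) := by
  have hmem : (1 : MvPolynomial σ ℝ) ∈ restrictTotalDegree σ ℝ D := by
    rw [mem_restrictTotalDegree, totalDegree_one]
    exact Nat.zero_le _
  have : Nontrivial (restrictTotalDegree σ ℝ D) :=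
    ⟨⟨⟨1, hmem⟩, 0, fun h => one_ne_zero (congrArg Subtype.val h)⟩⟩
  exact finrank_pos

/-- The thick norm against the thin norm, for the thickness vectors `thk`. -/
lemma jE_thk {n D : ℕ} {h r r' : ℝ} (E : Finset (Option (Fin n) → ℝ)) (hh : 0 < h) (hr : 0 < r)
    (hrr : r ≤ r') (P : restrictTotalDegree (Option (Fin n)) ℝ D) :
    jE D (thk h r) E P ≤ jE D (thk h r') E P ∧
      jE D (thk h r') E P ≤ (r' / r) ^ D * jE D (thk h r) E P := by
  have h1 : 1 ≤ r' / r := by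
    rw [le_div_iff₀ hr, one_mul]
    exact hrr
  exact ⟨jE_mono E (thk_pos hh hr) (thk_le le_rfl hrr) P,
    jE_radius E h1 (thk_pos hh hr) (fun o => (thk_pos hh (hr.trans_le hrr) o).le)
      (thk_ratio hh hr hrr) P⟩

end Pool.KST
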