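import Pool.Agent.H10.KAL.SVP

/-!
# Anisotropic jets of a polynomial

`shA P hs x` is the polynomial `u ↦ P (x + hs u)`, where `hs` gives one thickness for every
coordinate, and `PsiA P hs x` is the sum of the absolute values of its coefficients.
-/

set_option autoImplicit false

namespace Pool.KST

open Finset MvPolynomial Pool.KAL

section general

variable {σ : Type*}

/-- The polynomial `u ↦ P (x + hs u)`. -/
noncomputable def shA (P : MvPolynomial σ ℝ) (hs x : σ → ℝ) : MvPolynomial σ ℝ :=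
  aeval (fun i => C (x i) + C (hs i) * X i) P

theorem shA_const (P : MvPolynomial σ ℝ) (h : ℝ) (x : σ → ℝ) :
    shA P (fun _ => h) x = shf P h x := rfl

theorem eval_shA (P : MvPolynomial σ ℝ) (hs x u : σ → ℝ) :
    eval u (shA P hs x) = eval (fun i => x i + hs i * u i) P := by
  unfold shA
  rw [← coe_aeval_eq_eval, ← coe_aeval_eq_eval]
  rw [RingHom.coe_coe, RingHom.coe_coe, ← AlgHom.comp_apply, comp_aeval]
  simp

theorem shA_shA (P : MvPolynomial σ ℝ) (hs ks x y : σ → ℝ) :
    shA (shA P hs x) ks y = shA P (fun i => hs i * ks i) (fun i => x i + hs i * y i) := by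
  unfold shA
  rw [← AlgHom.comp_apply, comp_aeval]
  congr 2
  funext i
  simp only [map_add, map_mul, aeval_X, algHom_C, algebraMap_eq]
  ring

theorem shA_add (P Q : MvPolynomial σ ℝ) (hs x : σ → ℝ) :
    shA (P + Q) hs x = shA P hs x + shA Q hs x := by
  unfold shA
  rw [map_add]

theorem shA_smul (r : ℝ) (P : MvPolynomial σ ℝ) (hs x : σ → ℝ) :
    shA (r • P) hs x = C r * shA P hs x := by
  unfold shA
  rw [map_smul, smul_eq_C_mul]

theorem shA_zero_one (P : MvPolynomial σ ℝ) : shA P (fun _ => 1) (fun _ => 0) = P :=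
  shf_zero_one P

theorem totalDegree_shA_le (P : MvPolynomial σ ℝ) (hs x : σ → ℝ) :
    (shA P hs x).totalDegree ≤ P.totalDegree := by
  classical
  unfold shA
  have h1 : aeval (fun i => C (x i) + C (hs i) * X i) P
      = ∑ α ∈ P.support, C (coeff α P) * ∏ i ∈ α.support,
        (C (x i) + C (hs i) * X i : MvPolynomial σ ℝ) ^ α i := by
    rw [aeval_def, eval₂_eq]
    rfl
  rw [h1]
  refine totalDegree_finsetSum_le ?_
  intro α hα
  refine (totalDegree_mul _ _).trans ?_
  rw [totalDegree_C, zero_add]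
  refine (totalDegree_finsetProd _ _).trans ?_
  have h2 : ∀ i ∈ α.support,
      ((C (x i) + C (hs i) * X i : MvPolynomial σ ℝ) ^ α i).totalDegree ≤ α i := by
    intro i _
    refine (totalDegree_pow _ _).trans ?_
    have h3 : (C (x i) + C (hs i) * X i : MvPolynomial σ ℝ).totalDegree ≤ 1 := by
      refine (totalDegree_add _ _).trans ?_
      rw [totalDegree_C]
      refine max_le (Nat.zero_le _) ?_
      refine (totalDegree_mul _ _).trans ?_
      rw [totalDegree_C, totalDegree_X]
    calc α i * _ ≤ α i * 1 := Nat.mul_le_mul_left _ h3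
      _ = α i := mul_one _
  refine (Finset.sum_le_sum h2).trans ?_
  exact le_totalDegree hα

/-- **The anisotropic jet size.** -/
noncomputable def PsiA (P : MvPolynomial σ ℝ) (hs x : σ → ℝ) : ℝ := coefSum (shA P hs x)

theorem PsiA_const (P : MvPolynomial σ ℝ) (h : ℝ) (x : σ → ℝ) :
    PsiA P (fun _ => h) x = Psi P h x := rfl

theorem PsiA_nonneg (P : MvPolynomial σ ℝ) (hs x : σ → ℝ) : 0 ≤ PsiA P hs x := coefSum_nonneg _

theorem PsiA_zero (hs x : σ → ℝ) : PsiA (0 : MvPolynomial σ ℝ) hs x = 0 := by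
  unfold PsiA shA
  rw [map_zero, coefSum_zero]

theorem PsiA_add_le (P Q : MvPolynomial σ ℝ) (hs x : σ → ℝ) :
    PsiA (P + Q) hs x ≤ PsiA P hs x + PsiA Q hs x := by
  unfold PsiA
  rw [shA_add]
  exact coefSum_add_le _ _

theorem PsiA_smul (r : ℝ) (P : MvPolynomial σ ℝ) (hs x : σ → ℝ) :
    PsiA (r • P) hs x = |r| * PsiA P hs x := by
  unfold PsiA
  rw [shA_smul, coefSum_C_mul]

/-- Values near the point. -/
theorem abs_eval_le_PsiA_of_near (P : MvPolynomial σ ℝ) (hs x y : σ → ℝ) (hh : ∀ i, 0 < hs i)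
    (hxy : ∀ i, |y i - x i| ≤ hs i) : |eval y P| ≤ PsiA P hs x := by
  have h1 := abs_eval_le_coefSum (shA P hs x) (fun i => (y i - x i) / hs i) (by
    intro i
    rw [abs_div, abs_of_pos (hh i), div_le_one (hh i)]
    exact hxy i)
  rw [eval_shA] at h1
  have : (fun i => x i + hs i * ((y i - x i) / hs i)) = y := by
    funext i
    have := (hh i).ne'
    field_simp
    ring
  rw [this] at h1
  exact h1

/-- The point moves by at most `M` times the thickness. -/
theorem PsiA_near (P : MvPolynomial σ ℝ) (hs : σ → ℝ) (M : ℝ) (hh : ∀ i, 0 < hs i) (hM : 0 ≤ M)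
    (x x' : σ → ℝ) (hx : ∀ i, |x' i - x i| ≤ M * hs i) :
    PsiA P hs x' ≤ (1 + M) ^ P.totalDegree * PsiA P hs x := by
  have e : shA P hs x' = shA (shA P hs x) (fun _ => 1) (fun i => (x' i - x i) / hs i) := by
    rw [shA_shA]
    congr 1
    · funext i
      ring
    · funext i
      have := (hh i).ne'
      field_simp
      ring
  unfold PsiA
  rw [e]
  have h2 := coefSum_aeval_le (shA P hs x)
    (fun i => C ((x' i - x i) / hs i) + C (1 : ℝ) * X i) (1 + M) (by linarith) (by
      intro i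
      refine (coefSum_add_le _ _).trans ?_
      rw [coefSum_C, C_1, one_mul, coefSum_X, abs_div, abs_of_pos (hh i)]
      have : |x' i - x i| / hs i ≤ M := by
        rw [div_le_iff₀ (hh i)]
        exact hx i
      linarith)
  refine h2.trans ?_
  refine mul_le_mul_of_nonneg_right ?_ (coefSum_nonneg _)
  exact pow_le_pow_right₀ (by linarith) (totalDegree_shA_le P hs x)

theorem shA_scale (P : MvPolynomial σ ℝ) (hs ks x : σ → ℝ) :
    shA P (fun i => hs i * ks i) x = shA (shA P hs x) ks (fun _ => 0) := by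
  rw [shA_shA]
  congr 1
  funext i
  ring

/-- Growth in the thickness. -/
theorem PsiA_radius (P : MvPolynomial σ ℝ) (hs hs' : σ → ℝ) (M : ℝ) (hM : 1 ≤ M)
    (h0 : ∀ i, 0 < hs i) (h0' : ∀ i, 0 ≤ hs' i) (h : ∀ i, hs' i ≤ M * hs i) (x : σ → ℝ) :
    PsiA P hs' x ≤ M ^ P.totalDegree * PsiA P hs x := by
  have e : hs' = fun i => hs i * (hs' i / hs i) := by
    funext i
    have := (h0 i).ne'
    field_simp
  unfold PsiA
  rw [e, shA_scale]
  have h2 := coefSum_aeval_le (shA P hs x)
    (fun i => C (0 : ℝ) + C (hs' i / hs i) * X i) M hM (by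
      intro i
      refine (coefSum_add_le _ _).trans ?_
      rw [coefSum_C, coefSum_C_mul, coefSum_X, abs_zero, zero_add, mul_one, abs_div,
        abs_of_pos (h0 i), abs_of_nonneg (h0' i), div_le_iff₀ (h0 i)]
      exact h i)
  refine h2.trans ?_
  refine mul_le_mul_of_nonneg_right ?_ (coefSum_nonneg _)
  exact pow_le_pow_right₀ hM (totalDegree_shA_le P hs x)

/-- Monotonicity in the thickness. -/
theorem PsiA_mono (P : MvPolynomial σ ℝ) (hs hs' : σ → ℝ) (h0 : ∀ i, 0 < hs i)
    (h : ∀ i, hs i ≤ hs' i) (x : σ → ℝ) : PsiA P hs x ≤ PsiA P hs' x := by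
  have h1 := PsiA_radius P hs' hs 1 le_rfl (fun i => (h0 i).trans_le (h i)) (fun i => (h0 i).le)
    (fun i => by rw [one_mul]; exact h i) x
  rwa [one_pow, one_mul] at h1

theorem PsiA_eq_zero (P : MvPolynomial σ ℝ) (hs x : σ → ℝ) (h0 : ∀ i, 0 < hs i)
    (h : PsiA P hs x = 0) : P = 0 := by
  unfold PsiA at h
  rw [coefSum_eq_zero_iff] at h
  have e : shA (shA P hs x) (fun i => (hs i)⁻¹) (fun i => - x i / hs i) = P := by
    rw [shA_shA]
    have e1 : (fun i => hs i * (hs i)⁻¹) = fun _ : σ => (1 : ℝ) := by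
      funext i
      exact mul_inv_cancel₀ (h0 i).ne'
    have e2 : (fun i => x i + hs i * (- x i / hs i)) = fun _ : σ => (0 : ℝ) := by
      funext i
      have := (h0 i).ne'
      field_simp
      ring
    rw [e1, e2, shA_zero_one]
  rw [← e, h]
  unfold shA
  simp

theorem PsiA_pos (P : MvPolynomial σ ℝ) (hP : P ≠ 0) (hs x : σ → ℝ) (h0 : ∀ i, 0 < hs i) :
    0 < PsiA P hs x :=
  lt_of_le_of_ne (PsiA_nonneg P hs x) fun h => hP (PsiA_eq_zero P hs x h0 h.symm)

/-! ### The coefficients -/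

/-- The weight of an exponent. -/
noncomputable def wgt (hs : σ → ℝ) (α : σ →₀ ℕ) : ℝ := α.prod fun i k => hs i ^ k

theorem wgt_nonneg (hs : σ → ℝ) (h0 : ∀ i, 0 ≤ hs i) (α : σ →₀ ℕ) : 0 ≤ wgt hs α :=
  Finset.prod_nonneg fun i _ => pow_nonneg (h0 i) _

theorem wgt_pos (hs : σ → ℝ) (h0 : ∀ i, 0 < hs i) (α : σ →₀ ℕ) : 0 < wgt hs α :=
  Finset.prod_pos fun i _ => pow_pos (h0 i) _

theorem coeff_shA_zero (Q : MvPolynomial σ ℝ) (hs : σ → ℝ) (α : σ →₀ ℕ) :
    coeff α (shA Q hs (fun _ => 0)) = wgt hs α * coeff α Q := by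
  classical
  induction Q using MvPolynomial.induction_on' with
  | monomial β r =>
    have e : shA (monomial β r) hs (fun _ => 0) = monomial β (r * wgt hs β) := by
      unfold shA
      rw [aeval_monomial, algebraMap_eq]
      have e1 : (β.prod fun i k => (C (0 : ℝ) + C (hs i) * X i : MvPolynomial σ ℝ) ^ k) =
          C (wgt hs β) * β.prod fun i k => (X i : MvPolynomial σ ℝ) ^ k := by
        unfold wgt Finsupp.prod
        rw [map_prod, ← Finset.prod_mul_distrib]
        refine Finset.prod_congr rfl fun i _ => ?_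
        change (C (0 : ℝ) + C (hs i) * X i : MvPolynomial σ ℝ) ^ β i =
          C (hs i ^ β i) * X i ^ β i
        rw [C_0, zero_add, mul_pow, map_pow]
      rw [e1, ← mul_assoc, ← C_mul, ← monomial_eq]
    rw [e, coeff_monomial, coeff_monomial]
    split_ifs with h
    · rw [h, mul_comm]
    · rw [mul_zero]
  | add p q hp hq => rw [shA_add, coeff_add, coeff_add, hp, hq, mul_add]

/-- The coefficients of the anisotropic shift are the Taylor coefficients times the weights. -/
theorem coeff_shA (P : MvPolynomial σ ℝ) (hs x : σ → ℝ) (α : σ →₀ ℕ) :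
    coeff α (shA P hs x) = wgt hs α * coeff α (shf P 1 x) := by
  have e : shA P hs x = shA (shf P 1 x) hs (fun _ => 0) := by
    rw [← shA_const, shA_shA]
    congr 1
    · funext i
      ring
    · funext i
      ring
  rw [e, coeff_shA_zero]

end general

section finite

variable {σ : Type*} [Finite σ]

theorem PsiA_eq_box (P : MvPolynomial σ ℝ) (D : ℕ) (hD : P.totalDegree ≤ D) (hs x : σ → ℝ) :
    PsiA P hs x = ∑ α ∈ expBox σ D, |wgt hs α * coeff α (shf P 1 x)| := by
  unfold PsiA
  rw [coefSum_eq_box _ D ((totalDegree_shA_le P hs x).trans hD)]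
  exact Finset.sum_congr rfl fun α _ => by rw [coeff_shA]

/-- **The jet size along a line.** -/
theorem PsiA_line (P : MvPolynomial σ ℝ) (D : ℕ) (hD : P.totalDegree ≤ D) (hs x v : σ → ℝ) :
    ∃ q : (σ →₀ ℕ) → Polynomial ℝ, (∀ α, (q α).natDegree ≤ D) ∧
      ∀ t : ℝ, PsiA P hs (fun i => x i + t * v i) = ∑ α ∈ expBox σ D, |(q α).eval t| := by
  choose q hq using fun α => exists_line (jet P 1 α) x v
  refine ⟨fun α => Polynomial.C (wgt hs α) * q α, fun α => ?_, fun t => ?_⟩
  · exact (Polynomial.natDegree_C_mul_le _ _).trans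
      (((hq α).1.trans (totalDegree_jet_le P 1 α)).trans hD)
  · rw [PsiA_eq_box P D hD]
    refine Finset.sum_congr rfl fun α _ => ?_
    rw [Polynomial.eval_mul, Polynomial.eval_C, coeff_shf, (hq α).2 t]

end finite

end Pool.KST
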