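import Pool.Agent.H78.KST.NRM
import Pool.Agent.H99.KST.DST

/-!
# Row JBR of K_STEP: from jets to polynomials in the passive coordinate

For fixed `Y` the Taylor coefficients of `P` at `(Y, N)` are, up to factorials, the derivatives of
the polynomials `pn P Y a` in one variable.  Consequence (`conf_thm`): if the thick jet at `(Y, N)`
is much larger than the thin one then `N` is near a finite set which depends on `Y` only.
-/

set_option autoImplicit false

namespace Pool.KST

open Finset MvPolynomial Pool.KAL

variable {n : ℕ}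

/-- The point `(Y, N)`. -/
def pt (Y : Fin n → ℝ) (N : ℝ) : Option (Fin n) → ℝ := fun o => o.elim N Y

@[simp] lemma pt_none (Y : Fin n → ℝ) (N : ℝ) : pt Y N none = N := rfl

@[simp] lemma pt_some (Y : Fin n → ℝ) (N : ℝ) (i : Fin n) : pt Y N (some i) = Y i := rfl

lemma pt_eta (z : Option (Fin n) → ℝ) : pt (fun i => z (some i)) (z none) = z := by
  funext o
  cases o <;> rfl

/-- The terms with base exponent `a`, as a polynomial in the passive coordinate. -/
noncomputable def slL (a : Fin n →₀ ℕ) : MvPolynomial (Option (Fin n)) ℝ →ₗ[ℝ] Polynomial ℝ :=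
  (basisMonomials (Option (Fin n)) ℝ).constr ℝ
    (fun β => if β.some = a then Polynomial.monomial (β none) (1 : ℝ) else 0)

lemma slL_monomial (a : Fin n →₀ ℕ) (β : Option (Fin n) →₀ ℕ) (r : ℝ) :
    slL a (monomial β r) = if β.some = a then Polynomial.monomial (β none) r else 0 := by
  have e : (monomial β r : MvPolynomial (Option (Fin n)) ℝ) =
      r • (basisMonomials (Option (Fin n)) ℝ) β := by
    rw [coe_basisMonomials, smul_monomial, smul_eq_mul, mul_one]
  unfold slL
  rw [e, map_smul, Module.Basis.constr_basis]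
  split_ifs
  · rw [Polynomial.smul_monomial, smul_eq_mul, mul_one]
  · rw [smul_zero]

lemma natDegree_slL_le (a : Fin n →₀ ℕ) (Q : MvPolynomial (Option (Fin n)) ℝ) (D : ℕ)
    (hQ : Q.totalDegree ≤ D) : (slL a Q).natDegree ≤ D := by
  classical
  rw [Q.as_sum, map_sum]
  refine Polynomial.natDegree_sum_le_of_forall_le _ _ fun β hβ => ?_
  rw [slL_monomial]
  split_ifs
  · refine (Polynomial.natDegree_monomial_le _).trans ?_
    have h1 : β none ≤ Q.totalDegree := by
      refine le_trans ?_ (le_totalDegree hβ)
      by_cases h0 : β none = 0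
      · rw [h0]
        exact Nat.zero_le _
      · exact Finset.single_le_sum (f := fun j => β j) (fun _ _ => Nat.zero_le _)
          (Finsupp.mem_support_iff.2 h0)
    exact h1.trans hQ
  · rw [Polynomial.natDegree_zero]
    exact Nat.zero_le _

/-- The shift in the passive coordinate only. -/
lemma coeff_shf_passive (Q : MvPolynomial (Option (Fin n)) ℝ) (N : ℝ)
    (α : Option (Fin n) →₀ ℕ) :
    coeff α (shf Q 1 (pt (fun _ => 0) N)) =
      (Polynomial.hasseDeriv (α none) (slL α.some Q)).eval N := by
  classical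
  induction Q using MvPolynomial.induction_on' with
  | add p q hp hq =>
    have e : shf (p + q) 1 (pt (fun _ => 0) N) =
        shf p 1 (pt (fun _ => 0) N) + shf q 1 (pt (fun _ => 0) N) := by
      unfold shf
      rw [map_add]
    rw [e, coeff_add, hp, hq, map_add, map_add, Polynomial.eval_add]
  | monomial β r =>
    have e : shf (monomial β r) 1 (pt (fun _ => 0) N) =
        ∑ m ∈ range (β none + 1), monomial (β.some.optionElim m)
          (r * (N ^ (β none - m) * ((β none).choose m : ℝ))) := by
      unfold shf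
      rw [aeval_monomial, algebraMap_eq]
      have e1 : (β.prod fun o k => (C (pt (fun _ => 0) N o) + C (1 : ℝ) * X o :
          MvPolynomial (Option (Fin n)) ℝ) ^ k) =
          (X none + C N) ^ (β none) *
            β.some.prod fun i k => (X (some i) : MvPolynomial (Option (Fin n)) ℝ) ^ k := by
        rw [Finsupp.prod_option_index _ _ (fun _ => pow_zero _) (fun _ _ _ => pow_add _ _ _)]
        congr 1
        · simp only [pt_none, C_1, one_mul]
          rw [add_comm]
        · unfold Finsupp.prod
          refine Finset.prod_congr rfl fun i _ => ?_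
          simp
      rw [e1, add_pow, Finset.sum_mul, Finset.mul_sum]
      refine Finset.sum_congr rfl fun m _ => ?_
      have e2 : (monomial (β.some.optionElim m) (r * (N ^ (β none - m) *
          ((β none).choose m : ℝ))) : MvPolynomial (Option (Fin n)) ℝ) =
          C (r * (N ^ (β none - m) * ((β none).choose m : ℝ))) *
            (β.some.optionElim m).prod fun o k =>
              (X o : MvPolynomial (Option (Fin n)) ℝ) ^ k := monomial_eq
      rw [e2, Finsupp.prod_option_index _ _ (fun _ => pow_zero _) (fun _ _ _ => pow_add _ _ _),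
        Finsupp.some_optionElim, Finsupp.optionElim_apply_none]
      simp only [map_mul, map_pow, map_natCast]
      ring
    rw [e, coeff_sum, slL_monomial]
    simp only [coeff_monomial]
    by_cases h : β.some = α.some
    · rw [if_pos h, Polynomial.hasseDeriv_monomial, Polynomial.eval_monomial]
      by_cases hle : α none ≤ β none
      · rw [Finset.sum_eq_single (α none)]
        · rw [if_pos]
          · ring
          · rw [h, Finsupp.optionElim_some]
        · intro m _ hm
          rw [if_neg]
          intro h2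
          apply hm
          have := congrArg (fun f : Option (Fin n) →₀ ℕ => f none) h2
          simpa [Finsupp.optionElim_apply_none] using this
        · intro h2
          exact absurd (Finset.mem_range.mpr (Nat.lt_succ_of_le hle)) h2
      · rw [Finset.sum_eq_zero, Nat.choose_eq_zero_of_lt (not_le.mp hle), Nat.cast_zero, zero_mul,
          zero_mul]
        intro m hm
        rw [if_neg]
        intro h2
        apply hle
        have h3 := congrArg (fun f : Option (Fin n) →₀ ℕ => f none) h2
        simp only [Finsupp.optionElim_apply_none] at h3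
        rw [← h3]
        exact Nat.lt_succ_iff.mp (Finset.mem_range.mp hm)
    · rw [if_neg h, map_zero, Polynomial.eval_zero]
      refine Finset.sum_eq_zero fun m _ => ?_
      rw [if_neg]
      intro h2
      apply h
      rw [← h2, Finsupp.some_optionElim]

/-- The polynomials in the passive coordinate. -/
noncomputable def pn (P : MvPolynomial (Option (Fin n)) ℝ) (Y : Fin n → ℝ) (a : Fin n →₀ ℕ) :
    Polynomial ℝ := slL a (shf P 1 (pt Y 0))

lemma natDegree_pn_le (P : MvPolynomial (Option (Fin n)) ℝ) (Y : Fin n → ℝ) (a : Fin n →₀ ℕ)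
    (D : ℕ) (hP : P.totalDegree ≤ D) : (pn P Y a).natDegree ≤ D :=
  natDegree_slL_le a _ D ((totalDegree_shf_le P 1 _).trans hP)

/-- **Row JBR.** The Taylor coefficients are the derivatives of the polynomials `pn`. -/
theorem jbr (P : MvPolynomial (Option (Fin n)) ℝ) (Y : Fin n → ℝ) (N : ℝ)
    (α : Option (Fin n) →₀ ℕ) :
    ((α none).factorial : ℝ) * coeff α (shf P 1 (pt Y N)) =
      ((Polynomial.derivative^[α none]) (pn P Y α.some)).eval N := by
  have e : shf P 1 (pt Y N) = shf (shf P 1 (pt Y 0)) 1 (pt (fun _ => 0) N) := by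
    rw [shf_shf]
    congr 1
    · ring
    · funext o
      cases o <;> simp
  rw [e, coeff_shf_passive]
  have h1 := Polynomial.factorial_smul_hasseDeriv (R := ℝ) (α none)
  have h2 := congrFun h1 (pn P Y α.some)
  rw [← h2]
  unfold pn
  simp

lemma wgt_thk (h r : ℝ) (α : Option (Fin n) →₀ ℕ) :
    wgt (thk h r) α = r ^ (α none) * h ^ (α.some.degree) := by
  unfold wgt
  rw [Finsupp.prod_option_index _ _ (fun _ => pow_zero _) (fun _ _ _ => pow_add _ _ _)]
  congr 1
  unfold Finsupp.prod
  simp only [thk_some]
  rw [Finset.prod_pow_eq_pow_sum]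
  rfl

/-- The entries without derivatives in the passive direction are at most the jet size. -/
lemma entry_le (P : MvPolynomial (Option (Fin n)) ℝ) (h r : ℝ) (hh : 0 < h) (Y : Fin n → ℝ)
    (N : ℝ) (a : Fin n →₀ ℕ) :
    h ^ a.degree * |(pn P Y a).eval N| ≤ PsiA P (thk h r) (pt Y N) := by
  have h1 := abs_coeff_le (shA P (thk h r) (pt Y N)) (a.optionElim 0)
  rw [coeff_shA, wgt_thk, Finsupp.optionElim_apply_none, Finsupp.some_optionElim, pow_zero,
    one_mul] at h1
  have h2 := jbr P Y N (a.optionElim 0)
  rw [Finsupp.optionElim_apply_none, Finsupp.some_optionElim, Nat.factorial_zero, Nat.cast_one,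
    one_mul] at h2
  rw [Function.iterate_zero, id_eq] at h2
  rw [h2, abs_mul, abs_of_pos (pow_pos hh _)] at h1
  exact h1

/-- Some entry is at least the jet size divided by the number of entries. -/
lemma exists_entry (P : MvPolynomial (Option (Fin n)) ℝ) (D : ℕ) (hP : P.totalDegree ≤ D)
    (h r : ℝ) (hh : 0 < h) (hr : 0 < r) (Y : Fin n → ℝ) (N : ℝ) :
    ∃ α ∈ expBox (Option (Fin n)) D, PsiA P (thk h r) (pt Y N) ≤
      (expBox (Option (Fin n)) D).card * (r ^ (α none) * h ^ (α.some.degree) *
        |((Polynomial.derivative^[α none]) (pn P Y α.some)).eval N|) := by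
  have hne : (expBox (Option (Fin n)) D).Nonempty := ⟨0, by rw [mem_expBox]; simp⟩
  rw [PsiA_eq_box P D hP]
  obtain ⟨α, hα, hmax⟩ := (expBox (Option (Fin n)) D).exists_max_image
    (fun α => |wgt (thk h r) α * coeff α (shf P 1 (pt Y N))|) hne
  refine ⟨α, hα, ?_⟩
  have h1 : ∑ β ∈ expBox (Option (Fin n)) D, |wgt (thk h r) β * coeff β (shf P 1 (pt Y N))| ≤
      (expBox (Option (Fin n)) D).card * |wgt (thk h r) α * coeff α (shf P 1 (pt Y N))| := by
    refine (Finset.sum_le_sum hmax).trans ?_
    rw [Finset.sum_const, nsmul_eq_mul]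
  refine h1.trans (mul_le_mul_of_nonneg_left ?_ (Nat.cast_nonneg _))
  rw [wgt_thk, abs_mul, abs_of_pos (mul_pos (pow_pos hr _) (pow_pos hh _)), ← jbr P Y N α,
    abs_mul, Nat.abs_cast]
  refine mul_le_mul_of_nonneg_left ?_ (mul_pos (pow_pos hr _) (pow_pos hh _)).le
  have h2 : (1 : ℝ) ≤ (α none).factorial := by exact_mod_cast Nat.factorial_pos _
  have h3 := mul_le_mul_of_nonneg_right h2 (abs_nonneg (coeff α (shf P 1 (pt Y N))))
  linarith

/-- The number of base exponents. -/
noncomputable def nE (n D : ℕ) : ℕ := (expBox (Fin n) D).card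

/-- The number of exponents. -/
noncomputable def nF (n D : ℕ) : ℕ := (expBox (Option (Fin n)) D).card

lemma one_le_nF (n D : ℕ) : 1 ≤ nF n D :=
  Finset.card_pos.mpr ⟨0, by rw [mem_expBox]; simp⟩

/-- **Confinement.** For fixed `(P, Y)` the numbers `N` at which the thick jet is much larger than
the thin one are near a set of bounded cardinality. -/
theorem conf_thm (n D : ℕ) (hD : 1 ≤ D) (P : MvPolynomial (Option (Fin n)) ℝ) (hP0 : P ≠ 0)
    (hP : P.totalDegree ≤ D) (Y : Fin n → ℝ) (h lam ρ θ : ℝ) (hh : 0 < h)
    (hρ : 0 < ρ) (hθ : 0 < θ) (hθ1 : θ < 1) :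
    ∃ S : Finset ℝ, S.card ≤ nE n D * D ^ 2 ∧ ∀ N : ℝ,
      nF n D * PsiA P (thk h lam) (pt Y N) ≤ θ ^ D * PsiA P (thk h ρ) (pt Y N) →
      ∃ s ∈ S, |N - s| ≤ D * (θ * ρ) := by
  classical
  obtain ⟨S, hS, hc⟩ := dst (A := expBox (Fin n) D)
    (fun a => pn P Y a.1) D hD (fun a => natDegree_pn_le P Y a.1 D hP)
    (fun a => h ^ a.1.degree) (fun a => pow_pos hh _) ρ θ hρ hθ hθ1
  refine ⟨S, ?_, fun N hN => ?_⟩
  · rw [Fintype.card_coe] at hS
    exact hS
  obtain ⟨α, hα, hα2⟩ := exists_entry P D hP h ρ hh hρ Y N
  have hpos : 0 < PsiA P (thk h ρ) (pt Y N) := PsiA_pos P hP0 _ _ (thk_pos hh hρ)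
  have hF : (0 : ℝ) < nF n D := by exact_mod_cast one_le_nF n D
  have hsome : α.some ∈ expBox (Fin n) D := by
    rw [mem_expBox] at hα ⊢
    refine le_trans ?_ hα
    rw [Finsupp.degree_eq_sum, Finsupp.degree_eq_sum, Fintype.sum_option]
    simp
  refine hc N ⟨α.some, hsome⟩ (α none) ?_ ?_
  · rw [abs_pos]
    intro h0
    rw [h0, abs_zero, mul_zero, mul_zero] at hα2
    linarith
  · intro a
    have h1 := entry_le P h lam hh Y N a.1
    have h2 : nF n D * (h ^ a.1.degree * |(pn P Y a.1).eval N|) ≤
        θ ^ D * (nF n D * (ρ ^ (α none) * h ^ (α.some.degree) *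
        |((Polynomial.derivative^[α none]) (pn P Y α.some)).eval N|)) := by
      refine (mul_le_mul_of_nonneg_left h1 hF.le).trans (hN.trans ?_)
      exact mul_le_mul_of_nonneg_left hα2 (by positivity)
    have h3 : nF n D * (h ^ a.1.degree * |(pn P Y a.1).eval N|) ≤
        nF n D * (θ ^ D * (ρ ^ (α none) * h ^ (α.some.degree) *
        |((Polynomial.derivative^[α none]) (pn P Y α.some)).eval N|)) := by
      refine h2.trans (le_of_eq ?_)
      ring
    exact le_of_mul_le_mul_left h3 hF

end Pool.KST
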