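import Pool.Agent.H78.KST.GDQ
import Pool.Agent.H78.KST.JBR

/-!
# Row RSC of K_STEP: rescaling of a cube of a leaf to the unit cube
-/

set_option autoImplicit false

namespace Pool.KST

open Finset MvPolynomial Pool.KAL Pool.KS3 Pool.KS3.SML

variable {n : ℕ}

/-- The graph in the coordinates of the cube with corner `(a, b)` and side `s`. -/
noncomputable def rsG (G : MvPolynomial (Fin n) ℝ) (a : Fin n → ℝ) (b s : ℝ) :
    MvPolynomial (Fin n) ℝ := C (1 / s) * (shf G s a - C b)

/-- A polynomial in the coordinates of the cube with corner `(a, b)` and side `s`. -/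
noncomputable def rsQ (Q : MvPolynomial (Option (Fin n)) ℝ) (a : Fin n → ℝ) (b s : ℝ) :
    MvPolynomial (Option (Fin n)) ℝ := shf Q s (pt a b)

lemma eval_rsG (G : MvPolynomial (Fin n) ℝ) (a : Fin n → ℝ) (b s : ℝ) (y : Fin n → ℝ) :
    eval y (rsG G a b s) = (eval (fun i => a i + s * y i) G - b) / s := by
  unfold rsG
  rw [map_mul, map_sub, eval_C, eval_C, eval_shf]
  ring

lemma eval_rsQ (Q : MvPolynomial (Option (Fin n)) ℝ) (a : Fin n → ℝ) (b s : ℝ)
    (z : Option (Fin n) → ℝ) :
    eval z (rsQ Q a b s) = eval (fun o => pt a b o + s * z o) Q := eval_shf _ _ _ _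

/-- Jets in the coordinates of the cube. -/
lemma PsiA_rsQ (Q : MvPolynomial (Option (Fin n)) ℝ) (a : Fin n → ℝ) (b s : ℝ)
    (hs z : Option (Fin n) → ℝ) :
    PsiA (rsQ Q a b s) hs z = PsiA Q (fun o => s * hs o) (fun o => pt a b o + s * z o) := by
  unfold PsiA rsQ
  rw [← shA_const, shA_shA]

lemma rsQ_ne_zero {Q : MvPolynomial (Option (Fin n)) ℝ} (hQ : Q ≠ 0) (a : Fin n → ℝ) (b : ℝ)
    {s : ℝ} (hs : 0 < s) : rsQ Q a b s ≠ 0 := by
  intro h
  have h1 : 0 < Psi Q s (pt a b) := Psi_pos Q hQ s hs _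
  unfold rsQ at h
  unfold Psi at h1
  rw [h, coefSum_zero] at h1
  exact lt_irrefl _ h1

lemma totalDegree_rsQ_le (Q : MvPolynomial (Option (Fin n)) ℝ) (a : Fin n → ℝ) (b s : ℝ) :
    (rsQ Q a b s).totalDegree ≤ Q.totalDegree := totalDegree_shf_le _ _ _

lemma pderiv_rsQ (Q : MvPolynomial (Option (Fin n)) ℝ) (a : Fin n → ℝ) (b s : ℝ) :
    pderiv none (rsQ Q a b s) = C s * rsQ (pderiv none Q) a b s := pderiv_shf _ _ _ _

/-- Every polynomial is a rescaled one. -/
lemma exists_rsQ (Q' : MvPolynomial (Option (Fin n)) ℝ) (a : Fin n → ℝ) (b : ℝ) {s : ℝ}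
    (hs : 0 < s) : ∃ Q : MvPolynomial (Option (Fin n)) ℝ, rsQ Q a b s = Q' ∧
      Q.totalDegree ≤ Q'.totalDegree ∧ (Q' ≠ 0 → Q ≠ 0) := by
  have e : rsQ (shf Q' (1 / s) (fun o => - pt a b o / s)) a b s = Q' := by
    unfold rsQ
    rw [shf_shf]
    have e1 : 1 / s * s = 1 := by field_simp
    have e2 : (fun o => - pt a b o / s + 1 / s * pt a b o) = fun _ => (0 : ℝ) := by
      funext o
      ring
    rw [e1, e2, shf_zero_one]
  refine ⟨_, e, totalDegree_shf_le _ _ _, fun h0 h1 => h0 ?_⟩
  rw [← e, h1]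
  unfold rsQ shf
  simp

/-- The restriction to the graph in the two coordinate systems. -/
lemma gr_rs (G : MvPolynomial (Fin n) ℝ) (Q : MvPolynomial (Option (Fin n)) ℝ) (a : Fin n → ℝ)
    (b : ℝ) {s : ℝ} (hs : 0 < s) :
    gr (rsG G a b s) (rsQ Q a b s) = shf (gr G Q) s a := by
  refine MvPolynomial.funext fun y => ?_
  rw [eval_gr, eval_rsQ, eval_shf, eval_gr]
  congr 2
  funext o
  cases o with
  | none =>
    change b + s * eval y (rsG G a b s) = eval (fun i => a i + s * y i) G
    rw [eval_rsG]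
    field_simp
    ring
  | some i => rfl

/-- The supremum on the cube in the two coordinate systems. -/
lemma cs_shf (R : MvPolynomial (Fin n) ℝ) (a : Fin n → ℝ) {s : ℝ} (hs : 0 < s) :
    cs (fun _ => 0) 1 (shf R s a) = cs a s R := by
  refine le_antisymm (cs_le _ (cs_nonneg _ _ _) fun y hy => ?_)
    (cs_le _ (cs_nonneg _ _ _) fun y hy => ?_)
  · rw [eval_shf]
    refine le_cs hs.le R fun i => ?_
    have h1 := (hy i).1
    have h2 := (hy i).2
    constructor
    · have := mul_nonneg hs.le h1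
      linarith
    · have := mul_le_mul_of_nonneg_left (show y i ≤ 1 by linarith) hs.le
      linarith
  · have h1 : |eval (fun i => (y i - a i) / s) (shf R s a)| ≤ cs (fun _ => 0) 1 (shf R s a) := by
      refine le_cs zero_le_one _ fun i => ?_
      have h1 := (hy i).1
      have h2 := (hy i).2
      constructor
      · exact div_nonneg (by linarith) hs.le
      · rw [zero_add, div_le_one hs]
        linarith
    rw [eval_shf] at h1
    have e : (fun i => a i + s * ((y i - a i) / s)) = y := by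
      funext i
      field_simp
      ring
    rwa [e] at h1

/-- **Row RSC, bad cubes.** -/
theorem bad_rs (G : MvPolynomial (Fin n) ℝ) (a : Fin n → ℝ) (b : ℝ) {s : ℝ} (hs : 0 < s) (D : ℕ)
    (lm : ℝ) : Bad G a s D lm ↔ Bad (rsG G a b s) (fun _ => 0) 1 D (lm / s) := by
  have key : ∀ Q : MvPolynomial (Option (Fin n)) ℝ,
      lm / s * cs (fun _ => 0) 1 (gr (rsG G a b s) (pderiv none (rsQ Q a b s))) =
        lm * cs a s (gr G (pderiv none Q)) := by
    intro Q
    rw [pderiv_rsQ, gr_C_mul, cs_C_mul _ zero_le_one hs.ne', gr_rs G _ a b hs, cs_shf _ a hs,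
      abs_of_pos hs]
    field_simp
  constructor
  · intro h Q' hQ' hD
    obtain ⟨Q, rfl, h1, h2⟩ := exists_rsQ Q' a b hs
    rw [key, gr_rs G Q a b hs, cs_shf _ a hs]
    exact h Q (h2 hQ') (h1.trans hD)
  · intro h Q hQ hD
    have h1 := h (rsQ Q a b s) (rsQ_ne_zero hQ a b hs) ((totalDegree_rsQ_le Q a b s).trans hD)
    rwa [key, gr_rs G Q a b hs, cs_shf _ a hs] at h1

/-- **Row RSC, regular graphs.** -/
theorem regG_rs {G : MvPolynomial (Fin n) ℝ} {a : Fin n → ℝ} {b s : ℝ} (hs : 0 < s) {k₀ : ℕ}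
    {C₀ : ℝ} (h : RegG G a s k₀ C₀) : RegG (rsG G a b s) (fun _ => 0) 1 k₀ C₀ := by
  constructor
  · unfold rsG
    refine (totalDegree_mul _ _).trans ?_
    rw [totalDegree_C, zero_add]
    refine (totalDegree_sub _ _).trans (max_le ?_ ?_)
    · exact (totalDegree_shf_le _ _ _).trans h.deg
    · rw [totalDegree_C]
      exact Nat.zero_le _
  · intro y hy i
    have e : eval y (pderiv i (rsG G a b s)) = eval (fun i => a i + s * y i) (pderiv i G) := by
      unfold rsG
      have e1 : pderiv i (shf G s a - C b) = pderiv i (shf G s a) := by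
        rw [Derivation.map_sub, pderiv_C, sub_zero]
      rw [pderiv_C_mul, e1, pderiv_shf, map_mul, map_mul, eval_C, eval_C, eval_shf]
      field_simp
    rw [e]
    refine h.slope _ (fun j => ?_) i
    have h1 := (hy j).1
    have h2 := (hy j).2
    constructor
    · have := mul_nonneg hs.le h1
      linarith
    · have := mul_le_mul_of_nonneg_left (show y j ≤ 1 by linarith) hs.le
      linarith

/-- The distance to the graph. -/
lemma dist_rs (G : MvPolynomial (Fin n) ℝ) (a : Fin n → ℝ) (b : ℝ) {s : ℝ} (hs : 0 < s)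
    (z : Option (Fin n) → ℝ) :
    z none - eval (fun i => z (some i)) (rsG G a b s) =
      ((b + s * z none) - eval (fun i => a i + s * z (some i)) G) / s := by
  rw [eval_rsG]
  field_simp
  ring

end Pool.KST
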