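import Pool.Agent.H35.K2S.Stab
import Pool.Agent.H13.K2S.Lin

/-!
# Row OUT of K_STEP: from labels with small conditional entropy to exact labels

`out_select`: inside an event `E` there is an event on which `V` is a function of `b`, of relative
probability at least `exp (- H (V | b) / P (E))`. Consequence: a label which agrees with a function
of the window outside a small event, and given which the passive coordinate has small entropy,
is exact and thin after one restriction.
-/

set_option autoImplicit false

namespace Pool.KST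

open Finset Real
open Pool.Agent.H49.Ent Pool.Agent.H32.Dense Pool.STK Pool.KA Pool.K2S

/-- **Selection.** -/
theorem out_select {Ω S T : Type} [Fintype Ω] {p : Ω → ℝ} (hp : IsLaw p) (E : Ω → Prop)
    (V : Ω → S) (b : Ω → T) (hE : 0 < Pe p E) :
    ∃ v : T → S, Pe p E * Real.exp (-(CH p V b / Pe p E)) ≤
      Pe p (fun ω => E ω ∧ V ω = v (b ω)) := by
  classical
  have h0 := hp.nonneg
  have hne : (univ : Finset Ω).Nonempty := by
    by_contra hcon
    rw [Finset.not_nonempty_iff_eq_empty] at hcon
    rw [Pe_eq, hcon, Finset.sum_empty] at hE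
    exact lt_irrefl _ hE
  set W : Ω → T × Prop := fun ω => (b ω, E ω) with hW
  set VW : Ω → S × (T × Prop) := fun ω => (V ω, W ω) with hVW
  have hCH : CH p V W ≤ CH p V b :=
    CH_mono_cond h0 (W' := W) (W := b) (fun ω ω' _ _ h => (Prod.ext_iff.mp h).1)
  -- the most likely value
  have hex : ∀ t : T, ∃ s : S, ∀ ω, law p VW (V ω, (t, True)) ≤ law p VW (s, (t, True)) := by
    intro t
    obtain ⟨ω₀, -, h⟩ := Finset.exists_max_image univ (fun ω => law p VW (V ω, (t, True))) hne
    exact ⟨V ω₀, fun ω => h ω (Finset.mem_univ ω)⟩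
  choose v hv using hex
  refine ⟨v, ?_⟩
  set r : Ω → ℝ := fun ω => law p VW (VW ω) / law p W (W ω) with hr
  have hWE : ∀ ω, E ω → W ω = (b ω, True) := fun ω hω => by
    rw [hW]
    simp only [Prod.mk.injEq, true_and]
    exact eq_true hω
  -- the mass of the selected event
  have main1 : ∑ ω, (if E ω then p ω * r ω else 0) ≤ Pe p (fun ω => E ω ∧ V ω = v (b ω)) := by
    have e1 : Pe p (fun ω => E ω ∧ V ω = v (b ω)) =
        ∑ t ∈ univ.image b, law p VW (v t, (t, True)) := by
      rw [Pe_eq]
      unfold law
      rw [Finset.sum_comm]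
      refine Finset.sum_congr rfl fun ω _ => ?_
      rw [Finset.sum_eq_single (b ω)]
      · by_cases h : E ω ∧ V ω = v (b ω)
        · rw [if_pos h, if_pos]
          rw [hVW]
          simp only
          rw [hWE ω h.1, h.2]
        · rw [if_neg h, if_neg]
          intro h'
          apply h
          rw [hVW, hW] at h'
          simp only [Prod.mk.injEq, true_and, eq_iff_iff, iff_true] at h'
          exact ⟨h'.2, h'.1⟩
      · intro t _ ht
        rw [if_neg]
        intro h'
        rw [hVW, hW] at h'
        simp only [Prod.mk.injEq] at h'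
        exact ht h'.2.1.symm
      · intro h
        exact absurd (Finset.mem_image_of_mem _ (Finset.mem_univ ω)) h
    have e2 : ∑ ω, (if E ω then p ω * r ω else 0) ≤
        ∑ ω, ∑ t ∈ univ.image b, (if W ω = (t, True) then
          p ω * (law p VW (v t, (t, True)) / law p W (t, True)) else 0) := by
      refine Finset.sum_le_sum fun ω _ => ?_
      rw [Finset.sum_eq_single (b ω)]
      · by_cases h : E ω
        · rw [if_pos h, if_pos (hWE ω h)]
          refine mul_le_mul_of_nonneg_left ?_ (h0 ω)
          rw [hr]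
          simp only
          have e3 : VW ω = (V ω, (b ω, True)) := by rw [hVW]; simp only; rw [hWE ω h]
          rw [e3, hWE ω h]
          exact div_le_div_of_nonneg_right (hv (b ω) ω) (law_nonneg h0 _ _)
        · rw [if_neg h]
          split_ifs
          · exact mul_nonneg (h0 ω) (div_nonneg (law_nonneg h0 _ _) (law_nonneg h0 _ _))
          · exact le_rfl
      · intro t _ ht
        rw [if_neg]
        intro h'
        rw [hW] at h'
        simp only [Prod.mk.injEq] at h'
        exact ht h'.1.symm
      · intro h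
        exact absurd (Finset.mem_image_of_mem _ (Finset.mem_univ ω)) h
    refine e2.trans ?_
    rw [Finset.sum_comm, e1]
    refine Finset.sum_le_sum fun t _ => ?_
    have e4 : ∑ ω, (if W ω = (t, True) then
        p ω * (law p VW (v t, (t, True)) / law p W (t, True)) else 0) =
        law p W (t, True) * (law p VW (v t, (t, True)) / law p W (t, True)) := by
      conv_rhs => rw [law, Finset.sum_mul]
      refine Finset.sum_congr rfl fun ω _ => ?_
      split_ifs
      · rfl
      · rw [zero_mul]
    rw [e4]
    rcases (law_nonneg h0 W (t, True)).eq_or_lt with h | h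
    · rw [← h, zero_mul]
      exact law_nonneg h0 _ _
    · rw [mul_div_cancel₀ _ h.ne']
  refine le_trans ?_ main1
  -- Jensen
  set P : ℝ := Pe p E with hP
  set c : ℝ := -(CH p V W / P) with hc
  have hcle : Real.exp (-(CH p V b / P)) ≤ Real.exp c := by
    refine Real.exp_le_exp.2 (neg_le_neg ?_)
    exact div_le_div_of_nonneg_right hCH hE.le
  have hrlog : ∀ ω, 0 < p ω → 0 < r ω ∧ r ω ≤ 1 := by
    intro ω hω
    have h1 := law_pos h0 VW hω
    have h2 := law_pos h0 W hω
    refine ⟨div_pos h1 h2, (div_le_one h2).2 ?_⟩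
    exact law_mono_of_det h0 (X := VW) (Y := W)
      (fun ω ω' _ _ h => (Prod.ext_iff.mp h).2) hω
  have hlogsum : -CH p V W ≤ ∑ ω, (if E ω then p ω * Real.log (r ω) else 0) := by
    rw [CH_eq_neg_sum h0]
    unfold Ex
    rw [← Finset.sum_neg_distrib]
    refine Finset.sum_le_sum fun ω _ => ?_
    rcases (h0 ω).eq_or_lt with hω | hω
    · simp [← hω]
    · have h1 := (hrlog ω hω).2
      have h2 : Real.log (r ω) ≤ 0 := Real.log_nonpos (hrlog ω hω).1.le h1
      have h3 : p ω * Real.log (r ω) ≤ 0 := mul_nonpos_of_nonneg_of_nonpos hω.le h2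
      have e5 : -(p ω * -Real.log (law p (fun ω => (V ω, W ω)) (V ω, W ω) / law p W (W ω))) =
          p ω * Real.log (r ω) := by
        rw [hr]
        ring
      rw [e5]
      split_ifs
      · exact le_rfl
      · exact h3
  have hterm : ∀ ω, Real.exp c * (if E ω then p ω * (1 + Real.log (r ω) - c) else 0) ≤
      (if E ω then p ω * r ω else 0) := by
    intro ω
    by_cases h : E ω
    · rw [if_pos h, if_pos h]
      rcases (h0 ω).eq_or_lt with hω | hω
      · simp [← hω]
      · have h1 := (hrlog ω hω).1
        have h2 : Real.log (r ω) - c + 1 ≤ Real.exp (Real.log (r ω) - c) :=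
          Real.add_one_le_exp _
        rw [Real.exp_sub, Real.exp_log h1, le_div_iff₀ (Real.exp_pos c)] at h2
        calc Real.exp c * (p ω * (1 + Real.log (r ω) - c))
            = p ω * ((Real.log (r ω) - c + 1) * Real.exp c) := by ring
          _ ≤ p ω * r ω := mul_le_mul_of_nonneg_left h2 hω.le
    · rw [if_neg h, if_neg h, mul_zero]
  have hsum := Finset.sum_le_sum (s := univ) fun ω _ => hterm ω
  rw [← Finset.mul_sum] at hsum
  refine le_trans ?_ hsum
  have e6 : ∑ ω, (if E ω then p ω * (1 + Real.log (r ω) - c) else 0) =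
      (1 - c) * P + ∑ ω, (if E ω then p ω * Real.log (r ω) else 0) := by
    rw [hP, Pe_eq, Finset.mul_sum, ← Finset.sum_add_distrib]
    refine Finset.sum_congr rfl fun ω _ => ?_
    split_ifs
    · ring
    · ring
  rw [e6]
  have e7 : -c * P = CH p V W := by
    rw [hc, neg_neg]
    field_simp
  have h8 : P ≤ (1 - c) * P + ∑ ω, (if E ω then p ω * Real.log (r ω) else 0) := by
    have : (1 - c) * P = P + -c * P := by ring
    rw [this, e7]
    linarith
  calc P * Real.exp (-(CH p V b / P)) ≤ P * Real.exp c := mul_le_mul_of_nonneg_left hcle hE.le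
    _ = Real.exp c * P := mul_comm _ _
    _ ≤ _ := mul_le_mul_of_nonneg_left h8 (Real.exp_pos c).le

/-- **Exact labels.** `y` agrees with the function `sl` of the window outside an event of
probability `p₀`, and `V` has conditional entropy at most `ε` given the base coordinates and `y`. -/
theorem out_exact {Ω S T Y : Type} [Fintype Ω] {p : Ω → ℝ} (hp : IsLaw p) (y sl : Ω → Y)
    (V : Ω → S) (b : Ω → T) (p₀ ε : ℝ) (hp₀ : p₀ < 1)
    (hy : Pe p (fun ω => y ω ≠ sl ω) ≤ p₀) (hV : CH p V (fun ω => (b ω, y ω)) ≤ ε) :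
    ∃ v : T × Y → S, (1 - p₀) * Real.exp (-(ε / (1 - p₀))) ≤
      Pe p (fun ω => y ω = sl ω ∧ V ω = v (b ω, y ω)) := by
  classical
  have h0 := hp.nonneg
  have hsum : Pe p (fun ω => y ω = sl ω) + Pe p (fun ω => y ω ≠ sl ω) = 1 := by
    rw [Pe_eq, Pe_eq, ← Finset.sum_add_distrib, ← hp.sum_one]
    refine Finset.sum_congr rfl fun ω _ => ?_
    by_cases h : y ω = sl ω <;> simp [h]
  have hE1 : 1 - p₀ ≤ Pe p (fun ω => y ω = sl ω) := by linarith
  have hpos : 0 < 1 - p₀ := by linarith
  have hE : 0 < Pe p (fun ω => y ω = sl ω) := hpos.trans_le hE1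
  obtain ⟨v, hv⟩ := out_select hp (fun ω => y ω = sl ω) V (fun ω => (b ω, y ω)) hE
  refine ⟨v, le_trans ?_ hv⟩
  have hε : 0 ≤ CH p V (fun ω => (b ω, y ω)) := CH_nonneg h0 _ _
  refine mul_le_mul hE1 (Real.exp_le_exp.2 (neg_le_neg ?_)) (Real.exp_pos _).le hE.le
  exact div_le_div₀ (hε.trans hV) hV hpos hE1

end Pool.KST
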