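import Pool.Agent.H78.KST.NRM
import Pool.Agent.H99.KST.THN

/-!
# The two names of the anisotropic jet size agree
-/

set_option autoImplicit false

namespace Pool.KST

theorem Psv_eq_PsiA {σ : Type} (P : MvPolynomial σ ℝ) (hs x : σ → ℝ) :
    Psv P hs x = PsiA P hs x := rfl

end Pool.KST
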