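import Pool.Agent.H78.KST.NRM
import Pool.Agent.H55.KS3.SML

/-!
# Row GDQ of K_STEP: from the degree drop on a cube to jets, (0.1)

On a cube which is not bad there is a polynomial `Q` of degree at most `D` whose anisotropic jet
(thickness `h` in the base directions, `lm` in the passive direction) is at most `C lm g` on the
leaf, where `g` is the supremum of its derivative in the passive direction.
-/

set_option autoImplicit false

namespace Pool.KST

open Finset MvPolynomial Pool.KAL Pool.KS3 Pool.KS3.SML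

section general

variable {σ : Type*}

theorem pderiv_shA (P : MvPolynomial σ ℝ) (hs x : σ → ℝ) (i : σ) :
    pderiv i (shA P hs x) = C (hs i) * shA (pderiv i P) hs x := by
  classical
  unfold shA
  induction P using MvPolynomial.induction_on with
  | C a => simp
  | add p q hp hq => rw [map_add, map_add, hp, hq, map_add, map_add, mul_add]
  | mul_X p j hp =>
    rw [map_mul, Derivation.leibniz, hp, aeval_X, Derivation.leibniz, map_add (pderiv i),
      pderiv_C, zero_add, pderiv_C_mul]
    by_cases hij : j = i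
    · subst hij
      simp only [pderiv_X_self, smul_eq_mul, map_add, map_mul, aeval_X, map_one]
      ring
    · simp only [pderiv_X_of_ne hij, smul_eq_mul, map_add, map_mul, aeval_X, map_zero]
      ring

/-- Differentiation costs the thickness in that direction. -/
theorem PsiA_pderiv_le (P : MvPolynomial σ ℝ) (hs x : σ → ℝ) (i : σ) (hh : 0 ≤ hs i) :
    hs i * PsiA (pderiv i P) hs x ≤ P.totalDegree * PsiA P hs x := by
  have h1 := coefSum_pderiv_le (shA P hs x) i
  rw [pderiv_shA, coefSum_C_mul, abs_of_nonneg hh] at h1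
  refine h1.trans (mul_le_mul_of_nonneg_right ?_ (coefSum_nonneg _))
  exact_mod_cast totalDegree_shA_le P hs x

/-- The jet size is controlled by the value and the jet sizes of the derivatives. -/
theorem PsiA_le_pderiv [Fintype σ] (P : MvPolynomial σ ℝ) (hs x : σ → ℝ)
    (hh : ∀ i, 0 ≤ hs i) :
    PsiA P hs x ≤ |eval x P| + ∑ o, hs o * PsiA (pderiv o P) hs x := by
  have h1 := coefSum_le_pderiv (shA P hs x)
  rw [eval_shA] at h1
  have e : (fun i => x i + hs i * (0 : ℝ)) = x := by
    funext i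
    ring
  rw [e] at h1
  refine h1.trans (add_le_add le_rfl (Finset.sum_le_sum ?_))
  intro o _
  rw [pderiv_shA, coefSum_C_mul, abs_of_nonneg (hh o)]
  exact le_rfl

lemma pderiv_comm_of_ne {i j : σ} (hij : i ≠ j) (P : MvPolynomial σ ℝ) :
    pderiv i (pderiv j P) = pderiv j (pderiv i P) := by
  classical
  ext m
  rw [coeff_pderiv, coeff_pderiv, coeff_pderiv, coeff_pderiv]
  have e1 : m + Finsupp.single i 1 + Finsupp.single j 1 =
      m + Finsupp.single j 1 + Finsupp.single i 1 := by
    rw [add_assoc, add_assoc, add_comm (Finsupp.single i 1)]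
  have e2 : (m + Finsupp.single i 1 : σ →₀ ℕ) j = m j := by
    rw [Finsupp.add_apply, Finsupp.single_eq_of_ne (Ne.symm hij), add_zero]
  have e3 : (m + Finsupp.single j 1 : σ →₀ ℕ) i = m i := by
    rw [Finsupp.add_apply, Finsupp.single_eq_of_ne hij, add_zero]
  rw [e1, e2, e3]
  ring

end general

variable {n : ℕ}

/-- The iterated derivative in the passive direction. -/
noncomputable def dN (j : ℕ) (P : MvPolynomial (Option (Fin n)) ℝ) :
    MvPolynomial (Option (Fin n)) ℝ := (fun Q => pderiv none Q)^[j] P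

lemma dN_zero (P : MvPolynomial (Option (Fin n)) ℝ) : dN 0 P = P := rfl

lemma dN_succ (j : ℕ) (P : MvPolynomial (Option (Fin n)) ℝ) :
    dN (j + 1) P = dN j (pderiv none P) := Function.iterate_succ_apply _ _ _

lemma dN_succ' (j : ℕ) (P : MvPolynomial (Option (Fin n)) ℝ) :
    dN (j + 1) P = pderiv none (dN j P) := Function.iterate_succ_apply' _ _ _

lemma dN_dN (i j : ℕ) (P : MvPolynomial (Option (Fin n)) ℝ) : dN i (dN j P) = dN (i + j) P :=
  (Function.iterate_add_apply _ _ _ _).symm

lemma dN_zero_poly (j : ℕ) : dN j (0 : MvPolynomial (Option (Fin n)) ℝ) = 0 := by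
  induction j with
  | zero => rfl
  | succ j ih => rw [dN_succ', ih, map_zero]

lemma dN_pderiv (j : ℕ) (i : Fin n) (P : MvPolynomial (Option (Fin n)) ℝ) :
    dN j (pderiv (some i) P) = pderiv (some i) (dN j P) := by
  induction j with
  | zero => rfl
  | succ j ih =>
    rw [dN_succ', ih, dN_succ', pderiv_comm_of_ne (by simp)]

lemma totalDegree_pderiv_le' {σ : Type*} (o : σ) (Q : MvPolynomial σ ℝ) :
    (pderiv o Q).totalDegree ≤ Q.totalDegree := by
  by_cases h : Q.totalDegree = 0
  · rw [totalDegree_eq_zero_iff_eq_C] at h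
    rw [h, pderiv_C]
    simp
  · have h1 := totalDegree_pderiv_le o Q (Q.totalDegree - 1) (by omega)
    omega

lemma totalDegree_dN_le (j : ℕ) (P : MvPolynomial (Option (Fin n)) ℝ) :
    (dN j P).totalDegree ≤ P.totalDegree := by
  induction j with
  | zero => exact le_rfl
  | succ j ih =>
    rw [dN_succ']
    exact (totalDegree_pderiv_le' _ _).trans ih

lemma totalDegree_dN_le' (D j : ℕ) (P : MvPolynomial (Option (Fin n)) ℝ)
    (hP : P.totalDegree ≤ D) (hj : j ≤ D) : (dN j P).totalDegree ≤ D - j := by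
  induction j with
  | zero =>
    rw [dN_zero, Nat.sub_zero]
    exact hP
  | succ j ih =>
    rw [dN_succ']
    refine totalDegree_pderiv_le _ _ _ ?_
    have := ih (by omega)
    omega

lemma dN_eq_zero (D j : ℕ) (P : MvPolynomial (Option (Fin n)) ℝ)
    (hP : P.totalDegree ≤ D) (hj : D < j) : dN j P = 0 := by
  obtain ⟨k, rfl⟩ : ∃ k, j = k + (D + 1) := ⟨j - (D + 1), by omega⟩
  rw [← dN_dN]
  have h1 : (dN D P).totalDegree = 0 := by
    have := totalDegree_dN_le' D D P hP le_rfl
    omega
  rw [totalDegree_eq_zero_iff_eq_C] at h1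
  rw [dN_succ', h1, pderiv_C, dN_zero_poly]

/-- The recursion for the anisotropic jet on the graph. -/
theorem jet_rec (n D k₀ : ℕ) (C₀ : ℝ) (hC₀ : 1 ≤ C₀) : ∃ B : ℝ, 1 ≤ B ∧
    ∀ (G : MvPolynomial (Fin n) ℝ) (a : Fin n → ℝ) (h lm : ℝ), RegG G a 1 k₀ C₀ → 0 < h →
      h ≤ lm → lm ≤ 1 → ∀ d, d ≤ D → ∀ (R : MvPolynomial (Option (Fin n)) ℝ) (g : ℝ),
      R.totalDegree ≤ d → 0 ≤ g → (∀ j, cs a 1 (gr G (dN j R)) ≤ g / lm ^ j) →
      ∀ y ∈ cube a 1, PsiA R (thk h lm) (gpt G y) ≤ B ^ d * g := by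
  set E : ℕ := (k₀ + 1) * D with hE
  obtain ⟨K₁, hK₁, hcen⟩ := psi_center_le n E
  set K : ℝ := 2 * E * K₁ + C₀ with hK
  have hE0 : (0 : ℝ) ≤ E := Nat.cast_nonneg _
  have hK0 : 0 ≤ K := by positivity
  refine ⟨2 + n * K, by have : 0 ≤ n * K := by positivity
                        linarith, ?_⟩
  intro G a h lm hG hh hhl hl1 d
  have hl0 : 0 < lm := hh.trans_le hhl
  -- derivatives in the base directions
  have base : ∀ (R : MvPolynomial (Option (Fin n)) ℝ) (g : ℝ), R.totalDegree ≤ D → 0 ≤ g →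
      (∀ j, cs a 1 (gr G (dN j R)) ≤ g / lm ^ j) → ∀ (i : Fin n) (j : ℕ),
      cs a 1 (gr G (dN j (pderiv (some i) R))) ≤ (K * g / lm) / lm ^ j := by
    intro R g hR hg hj i j
    rw [dN_pderiv]
    have hdeg : (gr G (dN j R)).totalDegree ≤ E :=
      totalDegree_gr_le G k₀ D hG.deg _ ((totalDegree_dN_le j R).trans hR)
    have hpw : 0 < lm ^ j := by positivity
    refine cs_le _ (by positivity) fun y hy => ?_
    have h1 := markov E K₁ hcen a one_pos (gr G (dN j R)) hdeg i hy
    rw [pderiv_gr, map_add, map_mul, ← dN_succ'] at h1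
    have h2 : |eval y (gr G (dN (j + 1) R))| ≤ g / lm ^ (j + 1) :=
      (le_cs zero_le_one _ hy).trans (hj (j + 1))
    have h3 := hG.slope y hy i
    have h4 : |eval y (gr G (dN (j + 1) R)) * eval y (pderiv i G)| ≤ g / lm ^ (j + 1) * C₀ := by
      rw [abs_mul]
      exact mul_le_mul h2 h3 (abs_nonneg _) (by positivity)
    have h5 : |eval y (gr G (pderiv (some i) (dN j R)))| ≤
        2 * E * K₁ * (1 / 1) * cs a 1 (gr G (dN j R)) + g / lm ^ (j + 1) * C₀ := by
      have e : eval y (gr G (pderiv (some i) (dN j R))) =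
          (eval y (gr G (pderiv (some i) (dN j R))) +
            eval y (gr G (dN (j + 1) R)) * eval y (pderiv i G)) -
            eval y (gr G (dN (j + 1) R)) * eval y (pderiv i G) := by ring
      rw [e]
      exact (abs_sub _ _).trans (add_le_add h1 h4)
    refine h5.trans ?_
    have h6 : 2 * E * K₁ * (1 / 1) * cs a 1 (gr G (dN j R)) ≤ 2 * E * K₁ * (g / lm ^ (j + 1)) := by
      rw [div_one, mul_one]
      refine mul_le_mul_of_nonneg_left ((hj j).trans ?_) (by positivity)
      refine div_le_div_of_nonneg_left hg (by positivity) ?_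
      exact pow_le_pow_of_le_one hl0.le hl1 (Nat.le_succ j)
    have e2 : (K * g / lm) / lm ^ j = 2 * E * K₁ * (g / lm ^ (j + 1)) + g / lm ^ (j + 1) * C₀ := by
      rw [hK]
      field_simp
      ring
    rw [e2]
    linarith
  induction d with
  | zero =>
    intro _ R g hR hg hj y hy
    have hR0 : R.totalDegree = 0 := by omega
    rw [totalDegree_eq_zero_iff_eq_C] at hR0
    have h1 : |eval y (gr G R)| ≤ g := by
      have := (le_cs zero_le_one (gr G (dN 0 R)) hy).trans (hj 0)
      simpa [dN_zero] using this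
    rw [eval_gr] at h1
    rw [pow_zero, one_mul]
    refine le_trans (le_of_eq ?_) h1
    rw [hR0]
    unfold PsiA shA
    rw [aeval_C, eval_C]
    exact coefSum_C _
  | succ d ih =>
    intro hd R g hR hg hj y hy
    have h1 : |eval (gpt G y) R| ≤ g := by
      have := (le_cs zero_le_one (gr G (dN 0 R)) hy).trans (hj 0)
      rw [← eval_gr]
      simpa [dN_zero] using this
    have hB0 : 0 ≤ (2 + n * K) ^ d := by positivity
    have hB1 : 1 ≤ (2 + (n : ℝ) * K) ^ d := by
      refine one_le_pow₀ ?_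
      have : 0 ≤ n * K := by positivity
      linarith
    -- the passive direction
    have hNone : lm * PsiA (pderiv none R) (thk h lm) (gpt G y) ≤ (2 + n * K) ^ d * g := by
      have h2 := ih (by omega) (pderiv none R) (g / lm) (totalDegree_pderiv_le none R d hR)
        (by positivity) (fun j => by
          rw [← dN_succ]
          refine (hj (j + 1)).trans (le_of_eq ?_)
          field_simp
          ring) y hy
      calc lm * PsiA (pderiv none R) (thk h lm) (gpt G y)
          ≤ lm * ((2 + n * K) ^ d * (g / lm)) := mul_le_mul_of_nonneg_left h2 hl0.le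
        _ = (2 + n * K) ^ d * g := by field_simp
    have hSome : ∀ i : Fin n, h * PsiA (pderiv (some i) R) (thk h lm) (gpt G y) ≤
        K * ((2 + n * K) ^ d * g) := by
      intro i
      have h2 := ih (by omega) (pderiv (some i) R) (K * g / lm)
        (totalDegree_pderiv_le _ R d hR) (by positivity) (base R g (by omega) hg hj i) y hy
      calc h * PsiA (pderiv (some i) R) (thk h lm) (gpt G y)
          ≤ lm * PsiA (pderiv (some i) R) (thk h lm) (gpt G y) :=
            mul_le_mul_of_nonneg_right hhl (PsiA_nonneg _ _ _)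
        _ ≤ lm * ((2 + n * K) ^ d * (K * g / lm)) := mul_le_mul_of_nonneg_left h2 hl0.le
        _ = K * ((2 + n * K) ^ d * g) := by field_simp
    have h5 := PsiA_le_pderiv R (thk h lm) (gpt G y) (fun o => (thk_pos hh hl0 o).le)
    rw [Fintype.sum_option] at h5
    simp only [thk_none, thk_some] at h5
    have h6 : ∑ i : Fin n, h * PsiA (pderiv (some i) R) (thk h lm) (gpt G y) ≤
        n * (K * ((2 + n * K) ^ d * g)) := by
      refine (Finset.sum_le_sum fun i _ => hSome i).trans ?_
      rw [Finset.sum_const, Finset.card_univ, Fintype.card_fin, nsmul_eq_mul]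
    have h7 : g ≤ (2 + n * K) ^ d * g := by
      have := mul_le_mul_of_nonneg_right hB1 hg
      linarith
    calc PsiA R (thk h lm) (gpt G y)
        ≤ g + ((2 + n * K) ^ d * g + n * (K * ((2 + n * K) ^ d * g))) := by linarith
      _ ≤ (2 + n * K) ^ d * g + ((2 + n * K) ^ d * g + n * (K * ((2 + n * K) ^ d * g))) := by
          linarith
      _ = (2 + n * K) ^ (d + 1) * g := by ring

/-- **Row GDQ.** -/
theorem gdq_thm (n D k₀ : ℕ) (C₀ : ℝ) (hC₀ : 1 ≤ C₀) : ∃ C : ℝ, 1 ≤ C ∧
    ∀ (G : MvPolynomial (Fin n) ℝ) (a : Fin n → ℝ) (h lm : ℝ), 0 < h → h ≤ lm → lm ≤ 1 →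
      RegG G a 1 k₀ C₀ → ¬ Bad G a 1 D lm →
      ∃ Q : MvPolynomial (Option (Fin n)) ℝ, Q ≠ 0 ∧ Q.totalDegree ≤ D ∧
        0 < cs a 1 (gr G (pderiv none Q)) ∧
        ∀ z : Option (Fin n) → ℝ, (fun i => z (some i)) ∈ cube a 1 →
          |z none - MvPolynomial.eval (fun i => z (some i)) G| ≤ C₀ * h →
          PsiA Q (thk h lm) z ≤ C * lm * cs a 1 (gr G (pderiv none Q)) := by
  classical
  obtain ⟨B, hB1, hB⟩ := jet_rec n D k₀ C₀ hC₀
  refine ⟨(1 + C₀) ^ D * B ^ D, ?_, ?_⟩
  · have h1 : 1 ≤ (1 + C₀) ^ D := one_le_pow₀ (by linarith)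
    have h2 : 1 ≤ B ^ D := one_le_pow₀ hB1
    nlinarith
  intro G a h lm hh hhl hl1 hG hbad
  have hl0 : 0 < lm := hh.trans_le hhl
  unfold Bad at hbad
  push Not at hbad
  obtain ⟨Q₀, hQ₀, hQ₀D, hQ₀s⟩ := hbad
  -- the last good index
  set P : ℕ → Prop := fun i => dN i Q₀ ≠ 0 ∧
    cs a 1 (gr G (dN i Q₀)) ≤ lm * cs a 1 (gr G (dN (i + 1) Q₀)) with hP
  have hP0 : P 0 := ⟨hQ₀, by rw [dN_zero, dN_succ', dN_zero]; exact hQ₀s⟩
  set i : ℕ := Nat.findGreatest P D with hi
  have hPi : P i := Nat.findGreatest_spec (Nat.zero_le D) hP0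
  have hiD : i ≤ D := Nat.findGreatest_le D
  have hno : ∀ j, i < j → j ≤ D → ¬ P j := fun j h1 h2 => Nat.findGreatest_is_greatest h1 h2
  set c : ℕ → ℝ := fun j => cs a 1 (gr G (dN j Q₀)) with hc
  have hc0 : ∀ j, 0 ≤ c j := fun j => cs_nonneg _ _ _
  have hczero : ∀ j, dN j Q₀ = 0 → c j = 0 := by
    intro j hj
    simp only [hc]
    rw [hj]
    refine le_antisymm (cs_le _ le_rfl fun y _ => ?_) (cs_nonneg _ _ _)
    unfold gr
    simp
  have hstep : ∀ j, i < j → lm * c (j + 1) ≤ c j := by
    intro j hj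
    by_cases hjD : j ≤ D
    · by_cases h0 : dN j Q₀ = 0
      · have h1 : dN (j + 1) Q₀ = 0 := by rw [dN_succ', h0, map_zero]
        rw [hczero _ h1, mul_zero]
        exact hc0 j
      · have h1 := hno j hj hjD
        by_contra h2
        push Not at h2
        exact h1 ⟨h0, h2.le⟩
    · rw [hczero (j + 1) (dN_eq_zero D (j + 1) Q₀ hQ₀D (by omega)), mul_zero]
      exact hc0 j
  -- the derivative is not zero
  have hci : c i ≤ lm * c (i + 1) := hPi.2
  have hjet : ∀ g : ℝ, c (i + 1) ≤ g → ∀ j, cs a 1 (gr G (dN j (dN i Q₀))) ≤ (lm * g) / lm ^ j := by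
    intro g hg
    have key : ∀ j, lm ^ j * c (i + j) ≤ lm * g := by
      intro j
      induction j with
      | zero =>
        rw [pow_zero, one_mul, add_zero]
        exact hci.trans (mul_le_mul_of_nonneg_left hg hl0.le)
      | succ j ih =>
        rcases Nat.eq_zero_or_pos j with h0 | h0
        · subst h0
          rw [zero_add, pow_one]
          exact mul_le_mul_of_nonneg_left hg hl0.le
        · have h1 := hstep (i + j) (by omega)
          have h2 : lm ^ (j + 1) * c (i + (j + 1)) ≤ lm ^ j * c (i + j) := by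
            have e : lm ^ (j + 1) * c (i + (j + 1)) = lm ^ j * (lm * c (i + j + 1)) := by
              rw [← add_assoc]
              ring
            rw [e]
            exact mul_le_mul_of_nonneg_left h1 (by positivity)
          exact h2.trans ih
    intro j
    rw [dN_dN, add_comm j i, le_div_iff₀ (by positivity), mul_comm]
    exact key j
  have hdeg : (dN i Q₀).totalDegree ≤ D := (totalDegree_dN_le i Q₀).trans hQ₀D
  have hpos : 0 < c (i + 1) := by
    by_contra hcon
    have h0 : c (i + 1) ≤ 0 := not_lt.mp hcon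
    have ha : a ∈ cube a 1 := fun k => ⟨le_rfl, by linarith⟩
    have h1 := hB G a h lm hG hh hhl hl1 D le_rfl (dN i Q₀) (lm * 0) hdeg (by simp)
      (hjet 0 h0) a ha
    rw [mul_zero, mul_zero] at h1
    exact hPi.1 (PsiA_eq_zero _ _ _ (thk_pos hh hl0) (le_antisymm h1 (PsiA_nonneg _ _ _)))
  refine ⟨dN i Q₀, hPi.1, hdeg, ?_, ?_⟩
  · rw [← dN_succ']
    exact hpos
  intro z hz hzG
  rw [← dN_succ']
  have h1 := hB G a h lm hG hh hhl hl1 D le_rfl (dN i Q₀) (lm * c (i + 1)) hdeg
    (mul_nonneg hl0.le hpos.le) (hjet _ le_rfl) _ hz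
  have h2 := PsiA_near (dN i Q₀) (thk h lm) C₀ (thk_pos hh hl0) (by linarith)
    (gpt G fun i => z (some i)) z (by
      intro o
      cases o with
      | none =>
        rw [thk_none]
        refine hzG.trans ?_
        exact mul_le_mul_of_nonneg_left hhl (by linarith)
      | some k =>
        rw [thk_some]
        change |z (some k) - z (some k)| ≤ _
        rw [sub_self, abs_zero]
        positivity)
  refine h2.trans ?_
  have h3 : (1 + C₀) ^ (dN i Q₀).totalDegree ≤ (1 + C₀) ^ D := pow_le_pow_right₀ (by linarith) hdeg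
  have h4 : 0 ≤ B ^ D * (lm * c (i + 1)) :=
    mul_nonneg (by positivity) (mul_nonneg hl0.le hpos.le)
  calc (1 + C₀) ^ (dN i Q₀).totalDegree * PsiA (dN i Q₀) (thk h lm) (gpt G fun i => z (some i))
      ≤ (1 + C₀) ^ D * (B ^ D * (lm * c (i + 1))) :=
        mul_le_mul h3 h1 (PsiA_nonneg _ _ _) (by positivity)
    _ = (1 + C₀) ^ D * B ^ D * lm * c (i + 1) := by ring

/-- The derivative at small thickness against the jet at larger thickness. -/
theorem jet_pderiv_le {n D : ℕ} (Q : MvPolynomial (Option (Fin n)) ℝ) (hQ : Q.totalDegree ≤ D)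
    (h lm r : ℝ) (hh : 0 < h) (hl : 0 < lm) (hr : lm ≤ r) (z : Option (Fin n) → ℝ) :
    r * PsiA (pderiv none Q) (thk h lm) z ≤ D * PsiA Q (thk h r) z := by
  have hr0 : 0 < r := hl.trans_le hr
  have h1 := PsiA_pderiv_le Q (thk h r) z none (by rw [thk_none]; exact hr0.le)
  rw [thk_none] at h1
  have h2 : PsiA (pderiv none Q) (thk h lm) z ≤ PsiA (pderiv none Q) (thk h r) z :=
    PsiA_mono _ _ _ (thk_pos hh hl) (thk_le le_rfl hr) z
  have h3 : (Q.totalDegree : ℝ) ≤ D := by exact_mod_cast hQ
  calc r * PsiA (pderiv none Q) (thk h lm) z ≤ r * PsiA (pderiv none Q) (thk h r) z :=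
        mul_le_mul_of_nonneg_left h2 hr0.le
    _ ≤ Q.totalDegree * PsiA Q (thk h r) z := h1
    _ ≤ D * PsiA Q (thk h r) z := mul_le_mul_of_nonneg_right h3 (PsiA_nonneg _ _ _)

end Pool.KST
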