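import Pool.Agent.H78.KST.OUT
import Pool.Agent.H99.FLF.Step

/-!
# Row OUT of K_STEP: the closed label of the family

The output of the macro step is a label `y` of the points and a label `sl` of the lines in their
window which agree outside an event of probability `p₀`, such that the passive coordinate is
determined by the label and the other coordinates up to a small entropy. After one restriction
the label (together with the cell of the window) is exact and thin.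
-/

set_option autoImplicit false

namespace Pool.KST

open Finset Real
open Pool.Agent.H49.Ent Pool.Agent.H32.Dense Pool.STK Pool.KA Pool.KSAT Pool.K2S Pool.FLF

variable {m J : ℕ}

/-- **The closed label.** -/
theorem out_fam (F : Fam m J) {w L r : ℕ} (h : w + L = J) (hr : r ≤ L) (i1 : Fin m)
    (cl : ((Fin m → ℝ) × (Fin m → ℝ)) × F.ζ × ℕ → Fin m → ℤ)
    (hcl : ∀ ω, F.X w ω = cl (slam F w ω)) {Y : Type}
    (y : (Fin m → ℤ) × (ℕ × F.ζ) → Y) (sl : ((Fin m → ℝ) × (Fin m → ℝ)) × F.ζ × ℕ → Y)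
    {Γ : Type} (base : (Fin m → ℤ) × (ℕ × F.ζ) → Γ)
    (hbase : ∀ ξ ξ' : (Fin m → ℤ) × (ℕ × F.ζ), ξ.2.1 = ξ'.2.1 →
      (∀ i, i ≠ i1 → ξ.1 i = ξ'.1 i) → base ξ = base ξ')
    (p₀ ε : ℝ) (hp₀ : p₀ < 1)
    (hy : Pe F.p (fun ω => y (Fam.pt F ω) ≠ sl (slam F w ω)) ≤ p₀)
    (hV : CH F.p (fun ω => ((Fam.pt F ω).1 i1 % 2 ^ L).toNat / 2 ^ r)
      (fun ω => (base (Fam.pt F ω), y (Fam.pt F ω))) ≤ ε) :
    ∃ (S : Type) (z : (Fin m → ℤ) × (ℕ × F.ζ) → S)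
      (z1 : ((Fin m → ℝ) × (Fin m → ℝ)) × F.ζ × ℕ → S) (A : F.Ω → Prop),
      (1 - p₀) * Real.exp (-(ε / (1 - p₀))) ≤ Pe F.p A ∧
      (∀ ω, A ω → z (Fam.pt F ω) = z1 (slam F w ω)) ∧
      (∀ ω ω', A ω → A ω' → z (Fam.pt F ω) = z (Fam.pt F ω') → F.T ω = F.T ω' →
        (∀ i, i ≠ i1 → F.X J ω i = F.X J ω' i) →
        F.X (J - r) ω i1 = F.X (J - r) ω' i1 ∧ |F.x ω i1 - F.x ω' i1| ≤ 1 / 2 ^ (J - r)) := by
  obtain ⟨v, hv⟩ := out_exact F.isLaw (fun ω => y (Fam.pt F ω)) (fun ω => sl (slam F w ω))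
    (fun ω => ((Fam.pt F ω).1 i1 % 2 ^ L).toNat / 2 ^ r) (fun ω => base (Fam.pt F ω)) p₀ ε hp₀ hy hV
  refine ⟨Y × (ℕ × (Fin m → ℤ)), fun ξ => (y ξ, (ξ.2.1 / 2 ^ L, fun i => ξ.1 i / 2 ^ L)),
    fun l => (sl l, (l.2.2, cl l)), _, hv, ?_, ?_⟩
  · intro ω hω
    have e1 : y (Fam.pt F ω) = sl (slam F w ω) := hω.1
    have e2 : (Fam.pt F ω).2.1 / 2 ^ L = (slam F w ω).2.2 := by
      change F.T ω / 2 ^ L = F.T1 w ω
      unfold Fam.T1
      rw [show J - w = L by omega]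
    have e3 : (fun i => (Fam.pt F ω).1 i / 2 ^ L) = cl (slam F w ω) := by
      rw [← hcl ω]
      funext i
      exact (X_div F h ω i).symm
    change (y (Fam.pt F ω), ((Fam.pt F ω).2.1 / 2 ^ L, fun i => (Fam.pt F ω).1 i / 2 ^ L)) =
      (sl (slam F w ω), ((slam F w ω).2.2, cl (slam F w ω)))
    rw [e1, e2, e3]
  · intro ω ω' hω hω' hz hT hX
    have hz' : (y (Fam.pt F ω), ((Fam.pt F ω).2.1 / 2 ^ L, fun i => (Fam.pt F ω).1 i / 2 ^ L)) =
      (y (Fam.pt F ω'), ((Fam.pt F ω').2.1 / 2 ^ L, fun i => (Fam.pt F ω').1 i / 2 ^ L)) := hz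
    have z1 : y (Fam.pt F ω) = y (Fam.pt F ω') := (Prod.ext_iff.mp hz').1
    have z2 := (Prod.ext_iff.mp (Prod.ext_iff.mp hz').2).2
    have z3 : (Fam.pt F ω).1 i1 / 2 ^ L = (Fam.pt F ω').1 i1 / 2 ^ L := congrFun z2 i1
    have hb : base (Fam.pt F ω) = base (Fam.pt F ω') := hbase _ _ hT hX
    have v1 : ((Fam.pt F ω).1 i1 % 2 ^ L).toNat / 2 ^ r =
        v (base (Fam.pt F ω), y (Fam.pt F ω)) := hω.2
    have v2 : ((Fam.pt F ω').1 i1 % 2 ^ L).toNat / 2 ^ r =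
        v (base (Fam.pt F ω'), y (Fam.pt F ω')) := hω'.2
    have v3 : ((Fam.pt F ω).1 i1 % 2 ^ L).toNat / 2 ^ r =
        ((Fam.pt F ω').1 i1 % 2 ^ L).toNat / 2 ^ r := by rw [v1, v2, hb, z1]
    have e1 : (Fam.pt F ω).1 i1 = F.X J ω i1 := rfl
    have e2 : (Fam.pt F ω').1 i1 = F.X J ω' i1 := rfl
    have h0 : (J - r) + r = J := by omega
    have key : F.X (J - r) ω i1 = F.X (J - r) ω' i1 := by
      rw [X_div F h0 ω i1, X_div F h0 ω' i1]
      rw [e1, e2] at v3 z3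
      have hL : (2 : ℤ) ^ L = 2 ^ r * 2 ^ (L - r) := by rw [← pow_add]; congr 1; omega
      have gen : ∀ x : ℤ, x / 2 ^ r = 2 ^ (L - r) * (x / 2 ^ L) +
          (((x % 2 ^ L).toNat / 2 ^ r : ℕ) : ℤ) := by
        intro x
        push_cast
        rw [emod_toNat]
        have a1 := Int.emod_add_mul_ediv x (2 ^ L)
        conv_lhs => rw [← a1]
        rw [hL, mul_assoc, Int.add_mul_ediv_left _ _ (by positivity), add_comm]
      rw [gen (F.X J ω i1), gen (F.X J ω' i1), v3, z3]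
    refine ⟨key, ?_⟩
    have f1 : (F.X (J - r) ω i1 : ℝ) ≤ 2 ^ (J - r) * F.x ω i1 ∧
        2 ^ (J - r) * F.x ω i1 < F.X (J - r) ω i1 + 1 := by
      unfold Fam.X fl rd
      exact ⟨Int.floor_le _, Int.lt_floor_add_one _⟩
    have f2 : (F.X (J - r) ω' i1 : ℝ) ≤ 2 ^ (J - r) * F.x ω' i1 ∧
        2 ^ (J - r) * F.x ω' i1 < F.X (J - r) ω' i1 + 1 := by
      unfold Fam.X fl rd
      exact ⟨Int.floor_le _, Int.lt_floor_add_one _⟩
    rw [key] at f1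
    have hp : (0 : ℝ) < 2 ^ (J - r) := by positivity
    rw [le_div_iff₀ hp, ← abs_of_pos hp, ← abs_mul, abs_le]
    constructor <;> nlinarith [f1.1, f1.2, f2.1, f2.2]

end Pool.KST
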