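import Pool.Agent.H78.KST.OUT2
import Pool.Agent.H99.FLF.RES
import Pool.Agent.H18.PB.Defs

/-!
# Row OUT of K_STEP: the closed label in the predicates of Plan B
-/

set_option autoImplicit false

namespace Pool.KST

open Finset Real
open Pool.Agent.H49.Ent Pool.Agent.H32.Dense Pool.STK Pool.KA Pool.KSAT Pool.K2S Pool.FLF Pool.PB

variable {m J : ℕ}

/-- **The closed label.** `y` is a function of the point of resolution `r`, `sl` a function of the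
line with the window of length `2 ^ (-w)`; they agree outside an event of probability `p₀`; given
`y` and the other coordinates the cell of size `2 ^ (q - r)` of the coordinate `i₁` has entropy at
most `ε`. -/
theorem out_cls (F : Fam m J) {w L r q : ℕ} (h : w + L = r) (hq : q ≤ L)
    (i₁ : Fin m) (cl : ((Fin m → ℝ) × (Fin m → ℝ)) × F.ζ × ℕ → Fin m → ℤ)
    (hcl : ∀ ω, F.X w ω = cl (slam F w ω)) {Y : Type}
    (y : (Fin m → ℤ) × (ℕ × F.ζ) → Y)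
    (sl : ((Fin m → ℝ) × (Fin m → ℝ)) × F.ζ × ℕ → Option Y)
    {Γ : Type} (base : (Fin m → ℤ) × (ℕ × F.ζ) → Γ)
    (hbase : ∀ ξ : (Fin m → ℤ) × (ℕ × F.ζ), base (Function.update ξ.1 i₁ 0, ξ.2) = base ξ)
    (p₀ ε : ℝ) (hp₀ : p₀ < 1)
    (hy : Pe F.p (fun ω => some (y (ptr F r ω)) ≠ sl (slam F w ω)) ≤ p₀)
    (hV : CH F.p (fun ω => (F.X r ω i₁ % 2 ^ L).toNat / 2 ^ q)
      (fun ω => (base (ptr F r ω), y (ptr F r ω))) ≤ ε) :
    ∃ A : F.Ω → Prop, (1 - p₀) * Real.exp (-(ε / (1 - p₀))) ≤ Pe F.p A ∧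
      Cls F i₁ r 1 w (r - q) A := by
  have h0 := F.isLaw.nonneg
  have hV' : CH F.p (fun ω => (F.X r ω i₁ % 2 ^ L).toNat / 2 ^ q)
      (fun ω => (base (ptr F r ω), some (y (ptr F r ω)))) ≤ ε := by
    refine le_trans (le_of_eq ?_) hV
    refine CH_congr h0 ?_ ?_ ?_ ?_
    · intro ω ω' _ _ hh
      have h1 := (Prod.ext_iff.mp hh).1
      have h2 := (Prod.ext_iff.mp hh).2
      exact h1
    · intro ω ω' _ _ hh
      exact (Prod.ext_iff.mp hh).1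
    · intro ω ω' _ _ hh
      simp only [Prod.mk.injEq, Option.some.injEq] at hh ⊢
      exact hh
    · intro ω ω' _ _ hh
      simp only [Prod.mk.injEq, Option.some.injEq] at hh ⊢
      exact hh
  obtain ⟨v, hv⟩ := out_exact F.isLaw (fun ω => some (y (ptr F r ω))) (fun ω => sl (slam F w ω))
    (fun ω => (F.X r ω i₁ % 2 ^ L).toNat / 2 ^ q) (fun ω => base (ptr F r ω)) p₀ ε hp₀ hy hV'
  refine ⟨_, hv, Option Y × (ℕ × (Fin m → ℤ)),
    fun ξ => (some (y ξ), (ξ.2.1 / 2 ^ (J - w), fun i => ξ.1 i / 2 ^ L)),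
    fun l => (sl l, (l.2.2, cl l)),
    fun V W X' _ => (2 ^ L * (V.2.2 i₁ : ℝ) + 2 ^ q * ((v (base (X', W), V.1) : ℕ) : ℝ)) / 2 ^ r,
    ?_⟩
  intro ω hω
  have X_r : ∀ i, F.X w ω i = F.X r ω i / 2 ^ L := by
    intro i
    have h1 := Xr_emod F h ω i
    have h2 := Int.emod_add_mul_ediv (F.X r ω i) (2 ^ L)
    have h3 : (0 : ℤ) < 2 ^ L := by positivity
    have h4 : (2 : ℤ) ^ L * F.X w ω i = 2 ^ L * (F.X r ω i / 2 ^ L) := by linarith
    exact mul_left_cancel₀ h3.ne' h4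
  constructor
  · have e1 : some (y (ptr F r ω)) = sl (slam F w ω) := hω.1
    have e3 : (fun i => (ptr F r ω).1 i / 2 ^ L) = cl (slam F w ω) := by
      rw [← hcl ω]
      funext i
      exact (X_r i).symm
    have e2 : (ptr F r ω).2.1 / 2 ^ (J - w) = (slam F w ω).2.2 := rfl
    change (some (y (ptr F r ω)), ((ptr F r ω).2.1 / 2 ^ (J - w),
      fun i => (ptr F r ω).1 i / 2 ^ L)) = (sl (slam F w ω), ((slam F w ω).2.2, cl (slam F w ω)))
    rw [e1, e2, e3]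
  · refine ⟨0, ?_⟩
    have v1 : (F.X r ω i₁ % 2 ^ L).toNat / 2 ^ q = v (base (ptr F r ω), some (y (ptr F r ω))) :=
      hω.2
    have v2 : base (Function.update (F.X r ω) i₁ 0, F.W ω) = base (ptr F r ω) :=
      hbase (ptr F r ω)
    simp only
    have v3 : ((v (base (Function.update (F.X r ω) i₁ 0, F.W ω),
        some (y (ptr F r ω))) : ℕ) : ℝ) = (((F.X r ω i₁ % 2 ^ L).toNat / 2 ^ q : ℕ) : ℝ) := by
      rw [v2, ← v1]
    have v4 : (((ptr F r ω).1 i₁ / 2 ^ L : ℤ) : ℝ) = (F.X w ω i₁ : ℝ) := by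
      rw [X_r]
      rfl
    rw [v3, v4]
    have f1 : (F.X r ω i₁ : ℝ) ≤ 2 ^ r * F.x ω i₁ ∧ 2 ^ r * F.x ω i₁ < F.X r ω i₁ + 1 := by
      unfold Fam.X fl rd
      exact ⟨Int.floor_le _, Int.lt_floor_add_one _⟩
    have f2 : (F.X r ω i₁ : ℝ) = 2 ^ L * (F.X w ω i₁ : ℝ) +
        (((F.X r ω i₁ % 2 ^ L).toNat : ℕ) : ℝ) := by
      have g1 := Xr_emod F h ω i₁
      have g2 := emod_toNat (F.X r ω i₁) L
      have g3 : (((F.X r ω i₁ % 2 ^ L).toNat : ℕ) : ℝ) =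
          ((F.X r ω i₁ - 2 ^ L * F.X w ω i₁ : ℤ) : ℝ) := by
        rw [← g1, ← g2]
        push_cast
        rfl
      rw [g3]
      push_cast
      ring
    set c : ℕ := (F.X r ω i₁ % 2 ^ L).toNat with hc
    have f3 : (c : ℝ) = 2 ^ q * ((c / 2 ^ q : ℕ) : ℝ) + ((c % 2 ^ q : ℕ) : ℝ) := by
      have := Nat.div_add_mod c (2 ^ q)
      have h' : ((2 ^ q * (c / 2 ^ q) + c % 2 ^ q : ℕ) : ℝ) = (c : ℝ) := by rw [this]
      rw [← h']
      push_cast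
      ring
    have f4 : ((c % 2 ^ q : ℕ) : ℝ) + 1 ≤ 2 ^ q := by
      have : c % 2 ^ q + 1 ≤ 2 ^ q := Nat.mod_lt _ (Nat.two_pow_pos q)
      exact_mod_cast this
    have f5 : (0 : ℝ) ≤ ((c % 2 ^ q : ℕ) : ℝ) := Nat.cast_nonneg _
    have hr0 : (0 : ℝ) < 2 ^ r := by positivity
    have e5 : (2 : ℝ) ^ r = 2 ^ (r - q) * 2 ^ q := by rw [← pow_add]; congr 1; omega
    have e6 : (0 : ℝ) < 2 ^ (r - q) := by positivity
    have e7 : (0 : ℝ) < 2 ^ q := by positivity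
    have e8 : F.x ω i₁ - (2 ^ L * (F.X w ω i₁ : ℝ) + 2 ^ q * ((c / 2 ^ q : ℕ) : ℝ)) / 2 ^ r =
        (2 ^ r * F.x ω i₁ - (2 ^ L * (F.X w ω i₁ : ℝ) + 2 ^ q * ((c / 2 ^ q : ℕ) : ℝ))) /
          2 ^ r := by
      field_simp
    rw [e8, abs_div, abs_of_pos hr0]
    have e9 : (1 : ℝ) / 2 ^ (r - q) = 2 ^ q / 2 ^ r := by
      rw [e5]
      field_simp
    rw [e9]
    refine div_le_div_of_nonneg_right ?_ hr0.le
    rw [abs_le]
    constructor <;> linarith [f1.1, f1.2]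

end Pool.KST
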