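import Pool.Agent.H78.KST.JetA
import Pool.Agent.H33.KAL.RMG
import Pool.Agent.H20.KAL.RMM

/-!
# Row RMZ of K_STEP: one-variable Remez inequality for the anisotropic jet size along a line
-/

set_option autoImplicit false

namespace Pool.KST

open Finset MvPolynomial Pool.KAL MeasureTheory

variable {σ : Type} [Finite σ]

/-- From bounds for all polynomials of degree at most `D` in one variable to bounds for the jet
size along a line. -/
theorem psi_transfer (D : ℕ) (P : MvPolynomial σ ℝ) (hP : P.totalDegree ≤ D) (hs x v : σ → ℝ)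
    (h0 : ∀ i, 0 < hs i) (E : Set ℝ) (t S K : ℝ)
    (hK : ∀ (q : Polynomial ℝ) (M : ℝ), q.natDegree ≤ D → (∀ e ∈ E, |q.eval e| ≤ M) →
      |q.eval t| ≤ K * M)
    (hE : ∀ e ∈ E, ∃ z : σ → ℝ, (∀ i, |z i - (x i + e * v i)| ≤ hs i) ∧ PsiA P hs z ≤ S)
    (z' : σ → ℝ) (hz' : ∀ i, |z' i - (x i + t * v i)| ≤ hs i) :
    PsiA P hs z' ≤ 4 ^ D * (expBox σ D).card * (K * S) := by
  obtain ⟨q, hq, hqe⟩ := PsiA_line P D hP hs x v
  have h2D : (1 + 1 : ℝ) ^ P.totalDegree ≤ 2 ^ D := by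
    rw [one_add_one_eq_two]
    exact pow_le_pow_right₀ (by norm_num) hP
  have near : ∀ (y y' : σ → ℝ), (∀ i, |y' i - y i| ≤ hs i) → PsiA P hs y' ≤ 2 ^ D * PsiA P hs y := by
    intro y y' h
    refine (PsiA_near P hs 1 h0 zero_le_one y y' fun i => by rw [one_mul]; exact h i).trans ?_
    exact mul_le_mul_of_nonneg_right h2D (PsiA_nonneg _ _ _)
  have h1 : ∀ α ∈ expBox σ D, |(q α).eval t| ≤ K * (2 ^ D * S) := by
    intro α hα
    refine hK (q α) _ (hq α) fun e he => ?_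
    obtain ⟨z, hz, hzS⟩ := hE e he
    have h3 : PsiA P hs (fun i => x i + e * v i) ≤ 2 ^ D * S := by
      refine (near z _ fun i => ?_).trans (mul_le_mul_of_nonneg_left hzS (by positivity))
      rw [abs_sub_comm]
      exact hz i
    rw [hqe] at h3
    exact (Finset.single_le_sum (f := fun γ => |(q γ).eval e|) (fun _ _ => abs_nonneg _) hα).trans h3
  have h4 : PsiA P hs (fun i => x i + t * v i) ≤ (expBox σ D).card * (K * (2 ^ D * S)) := by
    rw [hqe]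
    refine (Finset.sum_le_sum h1).trans ?_
    rw [Finset.sum_const, nsmul_eq_mul]
  refine (near _ z' hz').trans ?_
  refine (mul_le_mul_of_nonneg_left h4 (by positivity)).trans (le_of_eq ?_)
  have e : (4 : ℝ) ^ D = 2 ^ D * 2 ^ D := by
    rw [← mul_pow]
    norm_num
  rw [e]
  ring

/-- **Row RMZ, sets of positive measure.** -/
theorem rmz_set (σ : Type) [Finite σ] (D : ℕ) : ∃ c : ℝ, 1 ≤ c ∧ ∀ (P : MvPolynomial σ ℝ)
    (hs x v : σ → ℝ) (a b ρ R S : ℝ) (E : Set ℝ), P.totalDegree ≤ D → (∀ i, 0 < hs i) →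
    a < b → 0 < ρ → ρ ≤ 1 → 1 ≤ R → MeasurableSet E → E ⊆ Set.Icc a b →
    ENNReal.ofReal (ρ * (b - a)) ≤ volume E →
    (∀ e ∈ E, ∃ z : σ → ℝ, (∀ i, |z i - (x i + e * v i)| ≤ hs i) ∧ PsiA P hs z ≤ S) →
    ∀ t : ℝ, |t - a| ≤ R * (b - a) → ∀ z' : σ → ℝ, (∀ i, |z' i - (x i + t * v i)| ≤ hs i) →
      PsiA P hs z' ≤ c * (R / ρ) ^ D * S := by
  obtain ⟨C, hC0, hC⟩ := rmm_thm D
  set c : ℝ := max 1 (4 ^ D * (expBox σ D).card * C) with hc
  refine ⟨c, le_max_left _ _, ?_⟩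
  intro P hs x v a b ρ R S E hP h0 hab hρ hρ1 hR hEm hEs hEv hE t ht z' hz'
  have hne : E.Nonempty := by
    rw [Set.nonempty_iff_ne_empty]
    intro h
    rw [h, measure_empty, nonpos_iff_eq_zero, ENNReal.ofReal_eq_zero] at hEv
    have : 0 < ρ * (b - a) := mul_pos hρ (sub_pos.mpr hab)
    linarith
  have hS : 0 ≤ S := by
    obtain ⟨e, he⟩ := hne
    obtain ⟨z, -, hz⟩ := hE e he
    exact (PsiA_nonneg _ _ _).trans hz
  have h1 := psi_transfer D P hP hs x v h0 E t S (C * (R / ρ) ^ D)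
    (fun q M hq hM => hC q a b ρ R M E hq hab hρ hρ1 hR hEm hEs hEv hM t ht) hE z' hz'
  refine h1.trans ?_
  have h2 : 4 ^ D * ((expBox σ D).card : ℝ) * (C * (R / ρ) ^ D * S) =
      (4 ^ D * (expBox σ D).card * C) * ((R / ρ) ^ D * S) := by ring
  rw [h2, mul_assoc c]
  refine mul_le_mul_of_nonneg_right (le_max_right _ _) ?_
  have : 0 ≤ R / ρ := by positivity
  positivity

/-- The constant of the grid form. -/
noncomputable def rmzC (σ : Type) [Finite σ] (D : ℕ) : ℝ :=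
  max 1 (4 ^ D * (expBox σ D).card * (((D : ℝ) + 1) * (4 * ((D : ℝ) + 1)) ^ D))

lemma one_le_rmzC (σ : Type) [Finite σ] (D : ℕ) : 1 ≤ rmzC σ D := le_max_left _ _

/-- **Row RMZ, grid times.** The times `e ∈ E` are integers in `[u, u + L)`, at least `ρ L` of
them; the conclusion holds at all real times `t` with `|t - u| ≤ R L`. -/
theorem rmz_grid (D : ℕ) (P : MvPolynomial σ ℝ) (hs x v : σ → ℝ) (E : Finset ℕ) (u L : ℕ)
    (ρ R S t : ℝ) (hP : P.totalDegree ≤ D) (h0 : ∀ i, 0 < hs i) (hρ : 0 < ρ) (hR : 1 ≤ R)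
    (hEu : ∀ e ∈ E, u ≤ e ∧ e < u + L) (hEc : ρ * L ≤ E.card) (hL : (D : ℝ) + 1 ≤ ρ * L)
    (hE : ∀ e ∈ E, ∃ z : σ → ℝ, (∀ i, |z i - (x i + (e : ℝ) * v i)| ≤ hs i) ∧ PsiA P hs z ≤ S)
    (ht : |t - u| ≤ R * L) (z' : σ → ℝ) (hz' : ∀ i, |z' i - (x i + t * v i)| ≤ hs i) :
    PsiA P hs z' ≤ rmzC σ D * (R / ρ) ^ D * S := by
  classical
  have hD0 : (0 : ℝ) ≤ D := Nat.cast_nonneg _
  have hL0 : (0 : ℝ) < L := by
    by_contra h
    push Not at h
    have h1 : ρ * (L : ℝ) ≤ 0 := mul_nonpos_of_nonneg_of_nonpos hρ.le h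
    linarith
  have hEne : E.Nonempty := by
    rw [Finset.nonempty_iff_ne_empty]
    intro h
    rw [h, Finset.card_empty, Nat.cast_zero] at hEc
    linarith
  have hS : 0 ≤ S := by
    obtain ⟨e, he⟩ := hEne
    obtain ⟨z, -, hz⟩ := hE e he
    exact (PsiA_nonneg _ _ _).trans hz
  -- the spacing
  set y : ℝ := ρ * L / ((D : ℝ) + 1) with hy
  have hy1 : 1 ≤ y := by
    rw [hy, le_div_iff₀ (by linarith), one_mul]
    exact hL
  set s : ℕ := ⌊y⌋₊ with hs'
  have hs1 : 1 ≤ s := by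
    rw [hs']
    exact Nat.le_floor (by exact_mod_cast hy1)
  have hsy : (s : ℝ) ≤ y := Nat.floor_le (by linarith)
  have hys : y / 2 ≤ s := by
    have h1 : y < s + 1 := Nat.lt_floor_add_one y
    have h2 : (1 : ℝ) ≤ s := by exact_mod_cast hs1
    linarith
  have hs0 : (0 : ℝ) < s := by exact_mod_cast hs1
  have hcard : s * D + 1 ≤ E.card := by
    have h1 : (s : ℝ) * ((D : ℝ) + 1) ≤ E.card := by
      have h2 : (s : ℝ) * ((D : ℝ) + 1) ≤ y * ((D : ℝ) + 1) :=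
        mul_le_mul_of_nonneg_right hsy (by linarith)
      have h3 : y * ((D : ℝ) + 1) = ρ * L := by
        rw [hy]
        field_simp
      linarith
    have h4 : s * (D + 1) ≤ E.card := by exact_mod_cast h1
    have h5 : s * (D + 1) = s * D + s := by ring
    omega
  set E' : Finset ℤ := E.map ⟨fun e : ℕ => (e : ℤ), Nat.cast_injective⟩ with hE'
  have hE'c : E'.card = E.card := Finset.card_map _
  have key := psi_transfer D P hP hs x v h0 {e : ℝ | ∃ k ∈ E, (k : ℝ) = e} t S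
    (((D : ℝ) + 1) * (2 * (R * L) / s) ^ D) (by
      intro q M hq hM
      refine rmg_thm D s q E' t (2 * (R * L)) M hq hs1 (by rw [hE'c]; exact hcard) ?_ ?_
      · intro e he
        rw [hE', Finset.mem_map] at he
        obtain ⟨k, hk, rfl⟩ := he
        obtain ⟨h1, h2⟩ := hEu k hk
        have h3 : (u : ℝ) ≤ k := by exact_mod_cast h1
        have h4 : (k : ℝ) < u + L := by exact_mod_cast h2
        change |t - (((k : ℕ) : ℤ) : ℝ)| ≤ _
        have h5 : (((k : ℕ) : ℤ) : ℝ) = (k : ℝ) := by push_cast; rfl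
        rw [h5]
        have h6 : |t - (k : ℝ)| ≤ |t - u| + |(u : ℝ) - k| := abs_sub_le _ _ _
        have h7 : |(u : ℝ) - k| ≤ L := by
          rw [abs_le]
          constructor <;> linarith
        have h8 : (L : ℝ) ≤ R * L := by
          have := mul_le_mul_of_nonneg_right hR hL0.le
          linarith
        linarith
      · intro e he
        rw [hE', Finset.mem_map] at he
        obtain ⟨k, hk, rfl⟩ := he
        change |q.eval (((k : ℕ) : ℤ) : ℝ)| ≤ M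
        have h5 : (((k : ℕ) : ℤ) : ℝ) = (k : ℝ) := by push_cast; rfl
        rw [h5]
        exact hM _ ⟨k, hk, rfl⟩)
    (by
      rintro e ⟨k, hk, rfl⟩
      exact hE k hk) z' hz'
  refine key.trans ?_
  have h1 : 2 * (R * L) / s ≤ 4 * ((D : ℝ) + 1) * (R / ρ) := by
    rw [div_le_iff₀ hs0]
    have h2 : 4 * ((D : ℝ) + 1) * (R / ρ) * (y / 2) = 2 * (R * L) := by
      rw [hy]
      field_simp
      ring
    have h3 : 0 ≤ 4 * ((D : ℝ) + 1) * (R / ρ) := by positivity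
    have h4 := mul_le_mul_of_nonneg_left hys h3
    linarith
  have h5 : (2 * (R * L) / s) ^ D ≤ (4 * ((D : ℝ) + 1)) ^ D * (R / ρ) ^ D := by
    rw [← mul_pow]
    exact pow_le_pow_left₀ (by positivity) h1 D
  have h6 : 4 ^ D * ((expBox σ D).card : ℝ) * (((D : ℝ) + 1) * (2 * (R * L) / s) ^ D * S) ≤
      4 ^ D * ((expBox σ D).card : ℝ) *
        (((D : ℝ) + 1) * ((4 * ((D : ℝ) + 1)) ^ D * (R / ρ) ^ D) * S) := by
    gcongr
  refine h6.trans ?_
  have h7 : 4 ^ D * ((expBox σ D).card : ℝ) *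
        (((D : ℝ) + 1) * ((4 * ((D : ℝ) + 1)) ^ D * (R / ρ) ^ D) * S) =
      (4 ^ D * (expBox σ D).card * (((D : ℝ) + 1) * (4 * ((D : ℝ) + 1)) ^ D)) *
        ((R / ρ) ^ D * S) := by ring
  rw [h7, mul_assoc (rmzC σ D)]
  refine mul_le_mul_of_nonneg_right (le_max_right _ _) ?_
  have : 0 ≤ R / ρ := by positivity
  positivity

/-- **Row RMZ, grid times `e / N`.** -/
theorem rmz_grid' (D : ℕ) (P : MvPolynomial σ ℝ) (hs A B : σ → ℝ) (E : Finset ℕ) (N u L : ℕ)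
    (ρ R S t : ℝ) (hN : 1 ≤ N) (hP : P.totalDegree ≤ D) (h0 : ∀ i, 0 < hs i) (hρ : 0 < ρ)
    (hR : 1 ≤ R) (hEu : ∀ e ∈ E, u ≤ e ∧ e < u + L) (hEc : ρ * L ≤ E.card)
    (hL : (D : ℝ) + 1 ≤ ρ * L)
    (hE : ∀ e ∈ E, ∃ z : σ → ℝ, (∀ i, |z i - (A i + (e : ℝ) / N * B i)| ≤ hs i) ∧
      PsiA P hs z ≤ S)
    (ht : |t * N - u| ≤ R * L) (z' : σ → ℝ) (hz' : ∀ i, |z' i - (A i + t * B i)| ≤ hs i) :
    PsiA P hs z' ≤ rmzC σ D * (R / ρ) ^ D * S := by
  have hN0 : (0 : ℝ) < N := by exact_mod_cast hN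
  refine rmz_grid D P hs A (fun i => B i / N) E u L ρ R S (t * N) hP h0 hρ hR hEu hEc hL ?_ ht z' ?_
  · intro e he
    obtain ⟨z, hz, hzS⟩ := hE e he
    refine ⟨z, fun i => ?_, hzS⟩
    have e1 : (e : ℝ) * (B i / N) = (e : ℝ) / N * B i := by ring
    rw [e1]
    exact hz i
  · intro i
    have e1 : t * N * (B i / N) = t * B i := by
      field_simp
    rw [e1]
    exact hz' i

end Pool.KST
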